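import Pool.Agent.Helper94K9.LD.Up
import Pool.Agent.Y636.CL.Final

/-!
# Asymptotic form
-/

set_option autoImplicit false
set_option linter.unusedSectionVars false

namespace Helper94K9.LD

open Finset Pool.Agent.TH661.LPX Pool.Agent.Y636.CL
open Pool.Agent.W964.Wd (IsDnf)

theorem choose_big : ∃ n₀ : ℕ, ∀ n : ℕ, n₀ ≤ n → ∃ k : ℕ, 1 ≤ k ∧ k ≤ n ∧ 2 ^ (k - 1) + 1 ≤ n ∧
    Real.log n ≤ k ∧ Real.exp (Real.log n ^ 2 / 2) ≤ n.choose k := by
  refine ⟨4096, fun n hn => ⟨Nat.log 2 n, ?_⟩⟩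
  have hn0 : (0 : ℝ) < n := by exact_mod_cast (by omega : 0 < n)
  have hnr : (4096 : ℝ) ≤ n := by exact_mod_cast hn
  have hk12 : 12 ≤ Nat.log 2 n := by
    refine Nat.le_log_of_pow_le (by norm_num) ?_
    norm_num; exact hn
  have hpow : 2 ^ Nat.log 2 n ≤ n := Nat.pow_log_le_self 2 (by omega)
  have hlt : n < 2 ^ (Nat.log 2 n + 1) := Nat.lt_pow_succ_log_self (by norm_num) n
  have hkn : Nat.log 2 n ≤ n := (Nat.lt_two_pow_self).le.trans hpow
  have h2 : 2 ^ (Nat.log 2 n - 1) + 1 ≤ n := by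
    have h3 : 2 ^ Nat.log 2 n = 2 * 2 ^ (Nat.log 2 n - 1) := by
      rw [← pow_succ']; congr 1; omega
    have h4 : 0 < 2 ^ (Nat.log 2 n - 1) := by positivity
    omega
  have hlog2 : 0.6931471803 < Real.log 2 := Real.log_two_gt_d9
  have hlog2' : Real.log 2 < 0.6931471808 := Real.log_two_lt_d9
  set k := Nat.log 2 n with hk
  have hk12r : (12 : ℝ) ≤ k := by exact_mod_cast hk12
  -- `log n ≤ k`
  have h3 : Real.log n ≤ (k + 1) * Real.log 2 := by
    have h4 : (n : ℝ) ≤ (2 : ℝ) ^ (k + 1) := by exact_mod_cast hlt.le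
    have h5 := Real.log_le_log hn0 h4
    rw [Real.log_pow] at h5
    push_cast at h5
    exact h5
  have h4 : Real.log n ≤ k := by nlinarith
  -- `k ≤ sqrt n`
  have h5 : k * Real.log 2 ≤ Real.log n := by
    have h6 : (2 : ℝ) ^ k ≤ n := by exact_mod_cast hpow
    have h7 := Real.log_le_log (by positivity) h6
    rw [Real.log_pow] at h7
    exact h7
  have h6 : (k : ℝ) ≤ 2 * Real.log n := by nlinarith
  have h7 : Real.log n ≤ (n : ℝ) ^ (1 / 4 : ℝ) / (1 / 4 : ℝ) :=
    Real.log_le_rpow_div hn0.le (by norm_num)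
  have h8 : (8 : ℝ) ≤ (n : ℝ) ^ (1 / 4 : ℝ) := by
    have : (8 : ℝ) = (4096 : ℝ) ^ (1 / 4 : ℝ) := by
      rw [show (4096 : ℝ) = (8 : ℝ) ^ (4 : ℝ) by norm_num, ← Real.rpow_mul (by norm_num)]
      norm_num
    rw [this]
    exact Real.rpow_le_rpow (by norm_num) hnr (by norm_num)
  have h9 : (k : ℝ) ≤ (n : ℝ) ^ (1 / 2 : ℝ) := by
    have h10 : (n : ℝ) ^ (1 / 2 : ℝ) = (n : ℝ) ^ (1 / 4 : ℝ) * (n : ℝ) ^ (1 / 4 : ℝ) := by
      rw [← Real.rpow_add hn0]; norm_num
    rw [h10]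
    nlinarith
  have h10 : Real.exp (Real.log n / 2) ≤ (n : ℝ) / k := by
    rw [le_div_iff₀ (by linarith)]
    have h11 : Real.exp (Real.log n / 2) = (n : ℝ) ^ (1 / 2 : ℝ) := by
      rw [Real.rpow_def_of_pos hn0]; congr 1; ring
    rw [h11]
    calc _ ≤ (n : ℝ) ^ (1 / 2 : ℝ) * (n : ℝ) ^ (1 / 2 : ℝ) :=
          mul_le_mul_of_nonneg_left h9 (by positivity)
      _ = n := by rw [← Real.rpow_add hn0]; norm_num
  refine ⟨by omega, hkn, h2, h4, ?_⟩
  have hx : 0 ≤ Real.log n := Real.log_nonneg (by linarith)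
  calc Real.exp (Real.log n ^ 2 / 2) ≤ Real.exp (Real.log n / 2) ^ k := by
        rw [← Real.exp_nat_mul]
        refine Real.exp_le_exp.2 ?_
        nlinarith
    _ ≤ ((n : ℝ) / k) ^ k := pow_le_pow_left₀ (Real.exp_pos _).le h10 k
    _ ≤ _ := pow_le_choose_real k n hkn (by omega)

theorem abs_le_of_sq {a b q : ℝ} (h : a ^ 2 ≤ Real.exp (-(2 * b)) * q) :
    |a| ≤ Real.exp (-b) * Real.sqrt q := by
  refine Real.abs_le_sqrt h |>.trans (le_of_eq ?_)
  rw [Real.sqrt_mul (Real.exp_pos _).le]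
  congr 1
  rw [show -(2 * b) = -b + -b by ring, Real.exp_add, Real.sqrt_mul_self (Real.exp_pos _).le]

/-- The lower bounds in asymptotic form. -/
theorem lower_asym : ∃ n₀ : ℕ, ∀ n : ℕ, n₀ ≤ n → ∀ (N : ℕ) (R : Type) [Fintype R] [Nonempty R]
    (L : Learner n N R),
    ((∃ d : ℕ, LabelDegree d L ∧ d * Real.log (N + 1) ≤ Real.log n ^ 2 / 12) ∨
      (∃ D : ℕ, SampleDegree D L ∧ D * Real.log (N + n) ≤ Real.log n ^ 3 / 12)) →
    ∃ f, IsDnf n f ∧ |corr L f| ≤ Real.exp (-(Real.log n ^ 2 / 12)) * Real.sqrt (sqMean L f) := by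
  obtain ⟨n₁, hn₁⟩ := choose_big
  refine ⟨max n₁ (⌈Real.exp 5⌉₊), fun n hn N R _ _ L hL => ?_⟩
  obtain ⟨k, hk1, hkn, hs, hxk, hC⟩ := hn₁ n (le_trans (le_max_left _ _) hn)
  have hn5 : Real.exp 5 ≤ n := by
    refine (Nat.le_ceil _).trans ?_
    exact_mod_cast le_trans (le_max_right _ _) hn
  have hn0 : (0 : ℝ) < n := lt_of_lt_of_le (Real.exp_pos _) hn5
  set x := Real.log n with hx
  have hx5 : 5 ≤ x := by
    rw [hx, Real.le_log_iff_exp_le hn0]; exact hn5
  have hn1 : (1 : ℝ) ≤ n := le_trans (by linarith [Real.add_one_le_exp (5 : ℝ)]) hn5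
  have hch : (0 : ℝ) < n.choose k := lt_of_lt_of_le (Real.exp_pos _) hC
  have hN1 : (0 : ℝ) < (N : ℝ) + 1 := by positivity
  have hNn : Real.log (N + 1) ≤ Real.log (N + n) := Real.log_le_log hN1 (by linarith)
  have hN1' : 0 ≤ Real.log ((N : ℝ) + 1) := Real.log_nonneg (by linarith [(N.cast_nonneg : (0:ℝ) ≤ N)])
  rcases hL with ⟨d, hL, hd⟩ | ⟨D, hL, hD⟩
  · obtain ⟨f, hf, hc⟩ := label_lower hk1 hkn hs L hL
    refine ⟨f, hf, abs_le_of_sq (hc.trans ?_)⟩
    refine mul_le_mul_of_nonneg_right ?_ (sqMean_nonneg L f)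
    rw [div_le_iff₀ hch]
    calc ((N : ℝ) + 1) ^ d = Real.exp (d * Real.log (N + 1)) := by
          rw [Real.exp_nat_mul, Real.exp_log hN1]
      _ ≤ Real.exp (-(2 * (x ^ 2 / 12)) + x ^ 2 / 2) := Real.exp_le_exp.2 (by nlinarith)
      _ = Real.exp (-(2 * (x ^ 2 / 12))) * Real.exp (x ^ 2 / 2) := Real.exp_add _ _
      _ ≤ _ := mul_le_mul_of_nonneg_left hC (Real.exp_pos _).le
  · have hx0 : 0 < x := by linarith
    have hlogx : x ≤ Real.log (N + n) :=
      Real.log_le_log hn0 (by linarith [(N.cast_nonneg : (0:ℝ) ≤ N)])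
    have hDx : D * x ≤ x ^ 3 / 12 := (mul_le_mul_of_nonneg_left hlogx D.cast_nonneg).trans hD
    have hD1 : (D : ℝ) ≤ x ^ 2 / 12 := by
      have : D * x ≤ (x ^ 2 / 12) * x := by linarith [hDx, (by ring : (x ^ 2 / 12) * x = x ^ 3 / 12)]
      exact le_of_mul_le_mul_right this hx0
    have hDl : D * Real.log (N + 1) ≤ x ^ 3 / 12 :=
      (mul_le_mul_of_nonneg_left hNn D.cast_nonneg).trans hD
    have hkp : (0 : ℝ) < (k : ℝ) + 1 := by positivity
    have hDk : D * Real.log (N + 1) / (k + 1) ≤ x ^ 2 / 12 := by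
      rw [div_le_iff₀ hkp]
      calc _ ≤ x ^ 3 / 12 := hDl
        _ = x ^ 2 / 12 * x := by ring
        _ ≤ _ := mul_le_mul_of_nonneg_left (by linarith) (by positivity)
    -- powers of `N + 1`
    have hp1 : ((N : ℝ) + 1) ^ (D / (k + 1)) ≤ Real.exp (x ^ 2 / 12) := by
      calc ((N : ℝ) + 1) ^ (D / (k + 1)) = Real.exp ((D / (k + 1) : ℕ) * Real.log (N + 1)) := by
            rw [Real.exp_nat_mul, Real.exp_log hN1]
        _ ≤ _ := by
            refine Real.exp_le_exp.2 (le_trans ?_ hDk)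
            have h1 : ((D / (k + 1) : ℕ) : ℝ) ≤ D / ((k : ℝ) + 1) := by
              have := Nat.cast_div_le (α := ℝ) (m := D) (n := k + 1)
              push_cast at this
              exact this
            calc _ ≤ D / ((k : ℝ) + 1) * Real.log (N + 1) := mul_le_mul_of_nonneg_right h1 hN1'
              _ = _ := by ring
    have hp2 : ((N : ℝ) + 1) ^ (2 * D / (k + 1)) ≤ Real.exp (x ^ 2 / 6) := by
      calc ((N : ℝ) + 1) ^ (2 * D / (k + 1)) =
            Real.exp ((2 * D / (k + 1) : ℕ) * Real.log (N + 1)) := by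
            rw [Real.exp_nat_mul, Real.exp_log hN1]
        _ ≤ _ := by
            refine Real.exp_le_exp.2 ?_
            have h1 : ((2 * D / (k + 1) : ℕ) : ℝ) ≤ 2 * D / ((k : ℝ) + 1) := by
              have := Nat.cast_div_le (α := ℝ) (m := 2 * D) (n := k + 1)
              push_cast at this
              exact this
            calc _ ≤ 2 * D / ((k : ℝ) + 1) * Real.log (N + 1) := mul_le_mul_of_nonneg_right h1 hN1'
              _ = 2 * (D * Real.log (N + 1) / (k + 1)) := by ring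
              _ ≤ 2 * (x ^ 2 / 12) := by linarith
              _ = _ := by ring
    have h16 : (16 : ℝ) ^ D ≤ Real.exp (x ^ 2 / 4) := by
      have h1 : (16 : ℝ) ≤ Real.exp 3 := by
        have h2 := Real.exp_one_gt_d9
        have h3 : Real.exp 3 = Real.exp 1 ^ 3 := by rw [← Real.exp_nat_mul]; norm_num
        rw [h3]
        calc (16 : ℝ) ≤ 2.7182818283 ^ 3 := by norm_num
          _ ≤ _ := pow_le_pow_left₀ (by norm_num) h2.le 3
      calc (16 : ℝ) ^ D ≤ Real.exp 3 ^ D := pow_le_pow_left₀ (by norm_num) h1 D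
        _ = Real.exp (D * 3) := by rw [Real.exp_nat_mul]
        _ ≤ _ := Real.exp_le_exp.2 (by linarith)
    have h4 : (4 : ℝ) ≤ Real.exp (x ^ 2 / 12) := by
      have h1 : (4 : ℝ) ≤ Real.exp 2 := by
        have h2 := Real.exp_one_gt_d9
        have h3 : Real.exp 2 = Real.exp 1 ^ 2 := by rw [← Real.exp_nat_mul]; norm_num
        rw [h3]
        nlinarith
      exact h1.trans (Real.exp_le_exp.2 (by nlinarith))
    have hcond : 4 * 16 ^ D * (N + 1) ^ (2 * D / (k + 1)) ≤ n.choose k := by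
      have : (4 : ℝ) * 16 ^ D * (N + 1) ^ (2 * D / (k + 1)) ≤ n.choose k := by
        calc _ ≤ Real.exp (x ^ 2 / 12) * Real.exp (x ^ 2 / 4) * Real.exp (x ^ 2 / 6) := by
              gcongr
          _ = Real.exp (x ^ 2 / 2) := by rw [← Real.exp_add, ← Real.exp_add]; congr 1; ring
          _ ≤ _ := hC
      exact_mod_cast this
    obtain ⟨f, hf, hc⟩ := sample_lower hk1 hkn hs hcond L hL
    refine ⟨f, hf, abs_le_of_sq (hc.trans ?_)⟩
    refine mul_le_mul_of_nonneg_right ?_ (sqMean_nonneg L f)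
    rw [div_le_iff₀ hch]
    calc 2 * ((N : ℝ) + 1) ^ (D / (k + 1)) ≤ Real.exp (x ^ 2 / 12) * Real.exp (x ^ 2 / 12) := by
          refine mul_le_mul (by linarith) hp1 (by positivity) (Real.exp_pos _).le
      _ = Real.exp (x ^ 2 / 6) := by rw [← Real.exp_add]; congr 1; ring
      _ ≤ Real.exp (-(2 * (x ^ 2 / 12)) + x ^ 2 / 2) := Real.exp_le_exp.2 (by nlinarith)
      _ = Real.exp (-(2 * (x ^ 2 / 12))) * Real.exp (x ^ 2 / 2) := Real.exp_add _ _
      _ ≤ _ := mul_le_mul_of_nonneg_left hC (Real.exp_pos _).le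

theorem LabelDegree.mono {n N : ℕ} {R : Type} {d d' : ℕ} (h : d ≤ d') {L : Learner n N R}
    (hL : LabelDegree d L) : LabelDegree d' L := by
  intro r X x
  obtain ⟨P, h1, h2⟩ := hL r X x
  exact ⟨P, h1.trans h, h2⟩

theorem SampleDegree.mono {n N : ℕ} {R : Type} {d d' : ℕ} (h : d ≤ d') {L : Learner n N R}
    (hL : SampleDegree d L) : SampleDegree d' L := by
  intro r x
  obtain ⟨P, h1, h2⟩ := hL r x
  exact ⟨P, h1.trans h, h2⟩

set_option maxHeartbeats 4000000 in
/-- The upper bound in asymptotic form. -/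
theorem upper_asym (C : ℝ) (hC : 0 < C) : ∃ K : ℝ, 0 < K ∧ ∃ n₀ : ℕ, ∀ n : ℕ, n₀ ≤ n →
    ∀ N : ℕ, (n : ℝ) ^ K ≤ N → ∃ L : Learner n N Unit,
      (∀ d : ℕ, K * Real.log n ^ 2 ≤ d * Real.log N → LabelDegree d L) ∧
      (∀ D : ℕ, K * Real.log n ≤ D → K * Real.log n ^ 3 ≤ D * Real.log N → SampleDegree D L) ∧
      ∀ (s : ℕ) (f : (Fin n → Bool) → Bool), (s : ℝ) ≤ (n : ℝ) ^ C → IsDnf s f →
        Real.sqrt (sqMean L f) ≤ (n : ℝ) ^ K * corr L f := by
  set a : ℝ := 2 * C + 2 with ha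
  have ha2 : 2 ≤ a := by linarith
  refine ⟨24 * a ^ 2, by positivity, ⌈Real.exp 3⌉₊, fun n hn N hN => ?_⟩
  set K : ℝ := 24 * a ^ 2 with hK
  have hKa : 48 * a ≤ K := by nlinarith
  have hn3 : Real.exp 3 ≤ n := (Nat.le_ceil _).trans (by exact_mod_cast hn)
  have hn0 : (0 : ℝ) < n := lt_of_lt_of_le (Real.exp_pos _) hn3
  set x := Real.log n with hx
  have hx3 : 3 ≤ x := by
    rw [hx, Real.le_log_iff_exp_le hn0]; exact hn3
  have hx0 : 0 < x := by linarith
  have hnx : (n : ℝ) = Real.exp x := (Real.exp_log hn0).symm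
  have hrp : ∀ c : ℝ, (n : ℝ) ^ c = Real.exp (c * x) := fun c => by
    rw [Real.rpow_def_of_pos hn0, mul_comm]
  rw [hrp] at hN
  have hN0 : (0 : ℝ) < N := lt_of_lt_of_le (Real.exp_pos _) hN
  set y := Real.log N with hy
  have hNy : (N : ℝ) = Real.exp y := (Real.exp_log hN0).symm
  have hyK : K * x ≤ y := by
    rw [hy, Real.le_log_iff_exp_le hN0]; exact hN
  have hy0 : 0 < y := lt_of_lt_of_le (by positivity) hyK
  -- the number of gates
  set s := ⌊(n : ℝ) ^ C⌋₊ with hs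
  have hs1 : 1 ≤ s := by
    rw [hs, Nat.one_le_floor_iff, hrp]
    exact Real.one_le_exp (by positivity)
  have hsC : (s : ℝ) ≤ Real.exp (C * x) := by
    rw [← hrp]; exact Nat.floor_le (by positivity)
  have hs0 : (0 : ℝ) < s := by exact_mod_cast hs1
  set ℓ := Nat.log 2 (2 * s) with hℓ
  have hℓ1 : 2 * s < 2 ^ (ℓ + 1) := Nat.lt_pow_succ_log_self (by norm_num) _
  have hℓ2 : (ℓ : ℝ) + 1 ≤ a * x := by
    have h1 : 2 ^ ℓ ≤ 2 * s := Nat.pow_log_le_self 2 (by omega)
    have h2 : (2 : ℝ) ^ ℓ ≤ 2 * s := by exact_mod_cast h1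
    have h3 := Real.log_le_log (by positivity) (h2.trans (mul_le_mul_of_nonneg_left hsC (by norm_num)))
    rw [Real.log_pow, Real.log_mul (by norm_num) (Real.exp_pos _).ne', Real.log_exp] at h3
    have hlog2 : 0.6931471803 < Real.log 2 := Real.log_two_gt_d9
    have h4 : (ℓ : ℝ) ≤ 1 + 2 * (C * x) := by
      by_contra hcon
      rw [not_le] at hcon
      have h5 : (1 + 2 * (C * x)) * Real.log 2 < ℓ * Real.log 2 :=
        mul_lt_mul_of_pos_right hcon (by linarith)
      have h6 : C * x ≤ 2 * (C * x) * Real.log 2 := by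
        have : 0 < C * x := by positivity
        nlinarith
      nlinarith
    rw [ha]
    nlinarith
  -- the number of groups
  set z := 8 * a * x ^ 2 / y with hz
  have hz0 : 0 < z := by positivity
  have hzx : z ≤ x := by
    rw [hz, div_le_iff₀ hy0]
    have : 8 * a * x ≤ K * x := mul_le_mul_of_nonneg_right (by linarith) hx0.le
    nlinarith
  set w := ⌊z⌋₊ with hw
  have hw1 : (w : ℝ) ≤ z := Nat.floor_le hz0.le
  have hw2 : z < w + 1 := Nat.lt_floor_add_one z
  set t := 2 * w + 1 with ht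
  have htr : (t : ℝ) = 2 * w + 1 := by rw [ht]; push_cast; ring
  have htz : z ≤ t := by rw [htr]; linarith [(w.cast_nonneg : (0 : ℝ) ≤ w)]
  have ht0 : (0 : ℝ) < t := lt_of_lt_of_le hz0 htz
  have ht3 : (t : ℝ) ≤ 3 * x := by rw [htr]; linarith
  -- the base
  set B := ⌈((n : ℝ) + 1) ^ ((ℓ : ℝ) / t)⌉₊ with hB
  have hB1 : (n + 1) ^ ℓ ≤ B ^ t := by
    have h1 : ((n : ℝ) + 1) ^ ℓ ≤ (B : ℝ) ^ t := by
      calc ((n : ℝ) + 1) ^ ℓ = (((n : ℝ) + 1) ^ ((ℓ : ℝ) / t)) ^ t := by
            rw [← Real.rpow_natCast (((n : ℝ) + 1) ^ ((ℓ : ℝ) / t)) t, ← Real.rpow_mul (by positivity),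
              div_mul_cancel₀ _ ht0.ne', Real.rpow_natCast]
        _ ≤ _ := pow_le_pow_left₀ (by positivity) (Nat.le_ceil _) t
    exact_mod_cast h1
  have hB2 : (B : ℝ) ≤ 2 * Real.exp (y / 4) := by
    have h1 : (1 : ℝ) ≤ ((n : ℝ) + 1) ^ ((ℓ : ℝ) / t) :=
      Real.one_le_rpow (by linarith) (by positivity)
    have h2 : (B : ℝ) ≤ ((n : ℝ) + 1) ^ ((ℓ : ℝ) / t) + 1 := (Nat.ceil_lt_add_one (by positivity)).le
    have h3 : ((n : ℝ) + 1) ^ ((ℓ : ℝ) / t) ≤ Real.exp (y / 4) := by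
      have h4 : Real.log ((n : ℝ) + 1) ≤ 2 * x := by
        have h5 : (n : ℝ) + 1 ≤ n ^ 2 := by
          have : (3 : ℝ) ≤ n := by
            have := Real.add_one_le_exp (3 : ℝ)
            linarith
          nlinarith
        have h6 := Real.log_le_log (by positivity) h5
        rw [Real.log_pow] at h6
        exact_mod_cast h6
      rw [Real.rpow_def_of_pos (by positivity)]
      refine Real.exp_le_exp.2 ?_
      have h7 : Real.log ((n : ℝ) + 1) * ((ℓ : ℝ) / t) ≤ (2 * x) * (a * x / z) := by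
        refine mul_le_mul h4 ?_ (by positivity) (by positivity)
        exact div_le_div₀ (by positivity) (by linarith) hz0 htz
      refine h7.trans (le_of_eq ?_)
      rw [hz]
      field_simp
      norm_num
    linarith
  -- the number of examples
  have hcount : 4 * s ^ 2 * (t * (t + 1)) * B ≤ N := by
    have h1 : (4 : ℝ) * s ^ 2 * (t * (t + 1)) * B ≤ N := by
      have h2 : (s : ℝ) ^ 2 ≤ Real.exp (2 * (C * x)) := by
        calc _ ≤ Real.exp (C * x) ^ 2 := pow_le_pow_left₀ hs0.le hsC 2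
          _ = _ := by rw [← Real.exp_nat_mul]; norm_num
      have h3 : (t : ℝ) * (t + 1) ≤ 12 * x ^ 2 := by nlinarith
      have h4 : x ^ 2 ≤ 2 * Real.exp x := by
        have := Real.quadratic_le_exp_of_nonneg hx0.le
        linarith
      have h5 : (192 : ℝ) ≤ Real.exp (2 * x) := by
        have h6 : Real.exp 6 ≤ Real.exp (2 * x) := Real.exp_le_exp.2 (by linarith)
        have h7 := Real.exp_one_gt_d9
        have h8 : Real.exp 6 = Real.exp 1 ^ 6 := by rw [← Real.exp_nat_mul]; norm_num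
        have h9 : (192 : ℝ) ≤ Real.exp 1 ^ 6 := by
          calc (192 : ℝ) ≤ 2.7182818283 ^ 6 := by norm_num
            _ ≤ _ := pow_le_pow_left₀ (by norm_num) h7.le 6
        linarith
      calc (4 : ℝ) * s ^ 2 * (t * (t + 1)) * B ≤
            4 * Real.exp (2 * (C * x)) * (12 * (2 * Real.exp x)) * (2 * Real.exp (y / 4)) := by
            refine mul_le_mul (mul_le_mul (mul_le_mul_of_nonneg_left h2 (by norm_num))
              (h3.trans (mul_le_mul_of_nonneg_left h4 (by norm_num))) (by positivity)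
              (by positivity)) hB2 (by positivity) (by positivity)
        _ = 192 * (Real.exp (2 * (C * x)) * Real.exp x * Real.exp (y / 4)) := by ring
        _ ≤ Real.exp (2 * x) * (Real.exp (2 * (C * x)) * Real.exp x * Real.exp (y / 4)) :=
            mul_le_mul_of_nonneg_right h5 (by positivity)
        _ = Real.exp (2 * x + (2 * (C * x) + x + y / 4)) := by
            rw [Real.exp_add (2 * x), Real.exp_add _ (y / 4), Real.exp_add _ x]
        _ ≤ Real.exp y := by
            refine Real.exp_le_exp.2 ?_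
            have h6 : 48 * a * x ≤ K * x := mul_le_mul_of_nonneg_right hKa hx0.le
            rw [ha] at h6
            nlinarith
        _ = N := hNy.symm
    exact_mod_cast h1
  obtain ⟨L, hL1, hL2, hL3⟩ := upper (N := N) hs1 hℓ1 (⟨w, rfl⟩ : Odd t) hB1 hcount
  refine ⟨L, fun d hd => hL1.mono ?_, fun D hD1 hD2 => hL2.mono ?_, fun s' f hs' hf => ?_⟩
  · -- label degree
    by_cases hz1 : z < 1
    · have hw0 : w = 0 := by rw [hw]; exact Nat.floor_eq_zero.2 hz1
      have h1 : t = 1 := by rw [ht, hw0]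
      rw [h1]
      by_contra h
      have h2 : d = 0 := by omega
      rw [h2] at hd
      have : 0 < K * x ^ 2 := by positivity
      push_cast at hd
      linarith
    · rw [not_lt] at hz1
      have h1 : (t : ℝ) ≤ 3 * z := by rw [htr]; linarith
      have h2 : 3 * z ≤ d := by
        rw [hz]
        have : 3 * (8 * a * x ^ 2 / y) = 24 * a * x ^ 2 / y := by ring
        rw [this, div_le_iff₀ hy0]
        refine le_trans ?_ hd
        refine mul_le_mul_of_nonneg_right ?_ (sq_nonneg _)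
        linarith
      exact_mod_cast h1.trans h2
  · -- sample degree
    have hgoal : ((t * (ℓ + 1) : ℕ) : ℝ) ≤ D := by
      push_cast
      by_cases hz1 : z < 1
      · have hw0 : w = 0 := by rw [hw]; exact Nat.floor_eq_zero.2 hz1
        have h1 : (t : ℝ) = 1 := by rw [htr, hw0]; norm_num
        rw [h1, one_mul]
        refine hℓ2.trans (le_trans ?_ hD1)
        exact mul_le_mul_of_nonneg_right (by linarith) hx0.le
      · rw [not_lt] at hz1
        have h1 : (t : ℝ) ≤ 3 * z := by rw [htr]; linarith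
        have h2 : (t : ℝ) * (ℓ + 1) ≤ 3 * z * (a * x) :=
          mul_le_mul h1 hℓ2 (by positivity) (by positivity)
        refine h2.trans ?_
        have h3 : 3 * z * (a * x) = K * x ^ 3 / y := by
          rw [hz, hK]; field_simp; norm_num
        rw [h3, div_le_iff₀ hy0]
        exact hD2
    exact_mod_cast hgoal
  · have hs'' : s' ≤ s := Nat.le_floor hs'
    have h1 := hL3 f (IsDnf.mono hs'' hf)
    have hcorr : 0 ≤ corr L f := by
      by_contra hcon
      rw [not_le] at hcon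
      have h2 : 8 * (s : ℝ) ^ 2 * corr L f < 0 := mul_neg_of_pos_of_neg (by positivity) hcon
      linarith [Real.sqrt_nonneg (sqMean L f)]
    refine h1.trans (mul_le_mul_of_nonneg_right ?_ hcorr)
    rw [hrp]
    have h2 : (s : ℝ) ^ 2 ≤ Real.exp (2 * (C * x)) := by
      calc _ ≤ Real.exp (C * x) ^ 2 := pow_le_pow_left₀ hs0.le hsC 2
        _ = _ := by rw [← Real.exp_nat_mul]; norm_num
    have h8 : (8 : ℝ) ≤ Real.exp 3 := by
      have h7 := Real.exp_one_gt_d9
      have h8 : Real.exp 3 = Real.exp 1 ^ 3 := by rw [← Real.exp_nat_mul]; norm_num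
      rw [h8]
      calc (8 : ℝ) ≤ 2.7182818283 ^ 3 := by norm_num
        _ ≤ _ := pow_le_pow_left₀ (by norm_num) h7.le 3
    calc 8 * (s : ℝ) ^ 2 ≤ Real.exp 3 * Real.exp (2 * (C * x)) :=
          mul_le_mul h8 h2 (by positivity) (Real.exp_pos _).le
      _ = Real.exp (3 + 2 * (C * x)) := (Real.exp_add _ _).symm
      _ ≤ Real.exp (K * x) := by
          refine Real.exp_le_exp.2 ?_
          have h6 : 48 * a * x ≤ K * x := mul_le_mul_of_nonneg_right hKa hx0.le
          rw [ha] at h6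
          nlinarith

end Helper94K9.LD
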