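import Mathlib
import Pool.Agent.W964.Wd.DnfDefs
import Pool.Agent.TH661.LPX.Par

/-!
# Learners that are polynomials in the sample: definitions

`sg b` is `-1` for `b = true` and `1` for `b = false`; `av` is the average over a finite type.
-/

set_option autoImplicit false

namespace Helper94K9.LD

open Pool.Agent.W964.Wd Pool.Agent.TH661.LPX

/-- A real valued randomized learner with `N` labelled examples: `L r X y x` is the value predicted for
the label of the point `x` if the random source has the value `r` (uniformly distributed in `R`) and
the examples are `(X i, y i)`, `i < N`. -/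
abbrev Learner (n N : ℕ) (R : Type) : Type :=
  R → (Fin N → Fin n → Bool) → (Fin N → Bool) → (Fin n → Bool) → ℝ

/-- For all values of the random source, all points `X i` and every point `x` the prediction is a
real polynomial of degree at most `d` in the signs of the labels. -/
def LabelDegree {n N : ℕ} {R : Type} (d : ℕ) (L : Learner n N R) : Prop :=
  ∀ r X x, ∃ P : MvPolynomial (Fin N) ℝ, P.totalDegree ≤ d ∧
    ∀ y, L r X y x = MvPolynomial.eval (fun i => sg (y i)) P

/-- The bits of the examples `(X i, y i)` as signs: `(i, some j)` is the coordinate `j` of the point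
`X i`, `(i, none)` is the label `y i`. -/
def bits {n N : ℕ} (X : Fin N → Fin n → Bool) (y : Fin N → Bool) (p : Fin N × Option (Fin n)) : ℝ :=
  p.2.elim (sg (y p.1)) (fun j => sg (X p.1 j))

/-- For all values of the random source and every point `x` the prediction is a real polynomial of
degree at most `D` in the signs of all the bits of the examples. -/
def SampleDegree {n N : ℕ} {R : Type} (D : ℕ) (L : Learner n N R) : Prop :=
  ∀ r x, ∃ P : MvPolynomial (Fin N × Option (Fin n)) ℝ, P.totalDegree ≤ D ∧
    ∀ X y, L r X y x = MvPolynomial.eval (bits X y) P

/-- The mean of `L * sg f` over the random source, the sample and a new uniformly distributed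
point `x`, the labels of the sample being the values of `f`. -/
noncomputable def corr {n N : ℕ} {R : Type} [Fintype R] (L : Learner n N R)
    (f : (Fin n → Bool) → Bool) : ℝ :=
  av fun ω : R × (Fin N → Fin n → Bool) × (Fin n → Bool) =>
    L ω.1 ω.2.1 (fun i => f (ω.2.1 i)) ω.2.2 * sg (f ω.2.2)

/-- The mean of `L ^ 2`. -/
noncomputable def sqMean {n N : ℕ} {R : Type} [Fintype R] (L : Learner n N R)
    (f : (Fin n → Bool) → Bool) : ℝ :=
  av fun ω : R × (Fin N → Fin n → Bool) × (Fin n → Bool) =>
    L ω.1 ω.2.1 (fun i => f (ω.2.1 i)) ω.2.2 ^ 2

end Helper94K9.LD
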