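import Pool.Agent.Helper94K9.LD.Defs
import Pool.Agent.Y636.CL.Low

/-!
# The dimension bound
-/

set_option autoImplicit false
set_option linter.unusedSectionVars false

namespace Helper94K9.LD

open Finset Pool.Agent.TH661.LPX Pool.Agent.Y636.CL
open Pool.Agent.W964.Wd (IsDnf)

section dim

variable {Ω κ σ : Type} [Fintype Ω] [Nonempty Ω] [DecidableEq σ]

/-- `f` as an element of the euclidean space. -/
noncomputable def toE (f : Ω → ℝ) : EuclideanSpace ℝ Ω := WithLp.toLp 2 f

theorem inner_toE (f g : Ω → ℝ) : inner ℝ (toE f) (toE g) = ∑ ω, f ω * g ω := by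
  rw [PiLp.inner_apply]
  refine sum_congr rfl fun ω _ => ?_
  simp [toE, mul_comm]

/-- Functions of a space of dimension at most `A` are on average almost orthogonal to an orthonormal
family. -/
theorem dim_bound [Fintype κ] (c : κ → Ω → ℝ) (𝒮 : Finset σ) (v : σ → Ω → ℝ)
    (hv : ∀ S ∈ 𝒮, ∀ S' ∈ 𝒮, av (fun ω => v S ω * v S' ω) = if S = S' then 1 else 0) :
    ∃ π : σ → ℝ, (∀ S, 0 ≤ π S) ∧ ∑ S ∈ 𝒮, π S ≤ Fintype.card κ ∧
      ∀ S, ∀ y : κ → ℝ, av (fun ω => (∑ T, y T * c T ω) * v S ω) ^ 2 ≤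
        π S * av (fun ω => (∑ T, y T * c T ω) ^ 2) := by
  classical
  set m : ℝ := (Fintype.card Ω : ℝ) with hm
  have hm0 : 0 < m := by rw [hm]; exact_mod_cast Fintype.card_pos
  set V : Submodule ℝ (EuclideanSpace ℝ Ω) := Submodule.span ℝ (Set.range fun T => toE (c T)) with hV
  have hfr : Module.finrank ℝ V ≤ Fintype.card κ := finrank_range_le_card (R := ℝ) _
  let b := stdOrthonormalBasis ℝ V
  let w : σ → EuclideanSpace ℝ Ω := fun S => (Real.sqrt m)⁻¹ • toE (v S)
  have hw : Orthonormal ℝ (fun S : {S // S ∈ 𝒮} => w S) := by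
    rw [orthonormal_iff_ite]
    rintro ⟨S, hS⟩ ⟨S', hS'⟩
    have h1 := hv S hS S' hS'
    simp only [w, inner_smul_left, inner_smul_right, inner_toE, Subtype.mk.injEq]
    unfold av at h1
    rw [← hm] at h1
    have h2 : ∑ ω, v S ω * v S' ω = m * (if S = S' then 1 else 0) := by
      rw [← h1]; field_simp
    rw [h2]
    have h3 : (Real.sqrt m)⁻¹ * ((Real.sqrt m)⁻¹ * m) = 1 := by
      have h4 : Real.sqrt m ≠ 0 := (Real.sqrt_pos.2 hm0).ne'
      field_simp
      rw [Real.sq_sqrt hm0.le]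
    by_cases h : S = S'
    · simp only [h, if_true, mul_one]
      simpa using h3
    · simp [h]
  refine ⟨fun S => ∑ j, (inner ℝ ((b j : V) : EuclideanSpace ℝ Ω) (w S)) ^ 2,
    fun S => sum_nonneg fun j _ => sq_nonneg _, ?_, ?_⟩
  · rw [sum_comm]
    have h1 : ∀ j, ∑ S ∈ 𝒮, (inner ℝ ((b j : V) : EuclideanSpace ℝ Ω) (w S)) ^ 2 ≤ 1 := by
      intro j
      have h2 := hw.sum_inner_products_le (((b j : V) : EuclideanSpace ℝ Ω)) (s := 𝒮.attach)
      have h3 : ‖((b j : V) : EuclideanSpace ℝ Ω)‖ = 1 := b.orthonormal.1 j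
      rw [h3, one_pow] at h2
      refine le_trans (le_of_eq ?_) h2
      rw [← Finset.sum_attach]
      refine sum_congr rfl fun S _ => ?_
      rw [real_inner_comm, Real.norm_eq_abs, sq_abs]
    calc _ ≤ ∑ _j : Fin (Module.finrank ℝ V), (1 : ℝ) := sum_le_sum fun j _ => h1 j
      _ = Module.finrank ℝ V := by simp
      _ ≤ Fintype.card κ := by exact_mod_cast hfr
  · intro S y
    set g : Ω → ℝ := fun ω => ∑ T, y T * c T ω with hg
    have hgV : toE g ∈ V := by
      have h1 : toE g = ∑ T, y T • toE (c T) := by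
        ext ω
        simp [toE, hg]
      rw [h1]
      exact Submodule.sum_mem _ fun T _ => Submodule.smul_mem _ _
        (Submodule.subset_span ⟨T, rfl⟩)
    have h2 : av (fun ω => g ω * v S ω) = inner ℝ (toE g) (w S) / Real.sqrt m := by
      simp only [w, inner_smul_right, inner_toE]
      unfold av
      rw [← hm]
      have h4 : Real.sqrt m ≠ 0 := (Real.sqrt_pos.2 hm0).ne'
      field_simp
      rw [Real.sq_sqrt hm0.le]
    have h3 : av (fun ω => g ω ^ 2) = inner ℝ (toE g) (toE g) / m := by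
      rw [inner_toE]; unfold av; rw [← hm]; simp only [sq]
    have h4 : (inner ℝ (toE g) (toE g) : ℝ) = ∑ j, (inner ℝ (toE g) ((b j : V) :
        EuclideanSpace ℝ Ω)) ^ 2 := by
      have h5 := b.sum_inner_mul_inner (⟨toE g, hgV⟩ : V) ⟨toE g, hgV⟩
      have h6 : (inner ℝ (⟨toE g, hgV⟩ : V) (⟨toE g, hgV⟩ : V) : ℝ) =
        inner ℝ (toE g) (toE g) := rfl
      rw [h6] at h5
      rw [← h5]
      refine sum_congr rfl fun j _ => ?_
      rw [sq]
      have h7 : (inner ℝ (b j) (⟨toE g, hgV⟩ : V) : ℝ) =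
        inner ℝ (toE g) ((b j : V) : EuclideanSpace ℝ Ω) := by
        rw [real_inner_comm]; rfl
      rw [h7]; rfl
    have h8 : (inner ℝ (toE g) (w S) : ℝ) = ∑ j, inner ℝ (toE g) ((b j : V) :
        EuclideanSpace ℝ Ω) * inner ℝ ((b j : V) : EuclideanSpace ℝ Ω) (w S) := by
      have h9 := b.sum_repr (⟨toE g, hgV⟩ : V)
      have h10 : toE g = ∑ j, (inner ℝ (toE g) ((b j : V) : EuclideanSpace ℝ Ω)) •
          ((b j : V) : EuclideanSpace ℝ Ω) := by
        have h11 := congrArg (fun z : V => (z : EuclideanSpace ℝ Ω)) h9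
        simp only [Submodule.coe_sum, Submodule.coe_smul] at h11
        rw [← h11]
        refine sum_congr rfl fun j _ => ?_
        congr 1
        rw [b.repr_apply_apply, real_inner_comm]
        rw [h11]
        rfl
      conv_lhs => rw [h10]
      rw [sum_inner]
      refine sum_congr rfl fun j _ => ?_
      rw [inner_smul_left]
      simp
    have h12 : (inner ℝ (toE g) (w S) : ℝ) ^ 2 ≤ (∑ j, (inner ℝ ((b j : V) :
        EuclideanSpace ℝ Ω) (w S)) ^ 2) * inner ℝ (toE g) (toE g) := by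
      rw [h8, h4, mul_comm (∑ j, _ ^ 2)]
      exact sum_mul_sq_le_sq_mul_sq _ _ _
    show av (fun ω => g ω * v S ω) ^ 2 ≤ _ * av (fun ω => g ω ^ 2)
    rw [h2, h3, div_pow, Real.sq_sqrt hm0.le, ← mul_div_assoc]
    exact div_le_div_of_nonneg_right h12 hm0.le

end dim

section mult

variable {ι : Type} [Fintype ι] [DecidableEq ι]

/-- Polynomials on the cube are multilinear. -/
theorem mult_form {d : ℕ} (P : MvPolynomial ι ℝ) (hP : P.totalDegree ≤ d) :
    ∃ c : Finset ι → ℝ, (∀ M : Finset ι, d < M.card → c M = 0) ∧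
      ∀ z : ι → ℝ, (∀ i, z i * z i = 1) →
        MvPolynomial.eval z P = ∑ M : Finset ι, c M * ∏ i ∈ M, z i := by
  classical
  let od : (ι →₀ ℕ) → Finset ι := fun m => univ.filter fun i => Odd (m i)
  refine ⟨fun M => ∑ m ∈ P.support.filter (fun m => od m = M), P.coeff m, ?_, ?_⟩
  · intro M hM
    refine sum_eq_zero fun m hm => ?_
    rw [mem_filter] at hm
    exfalso
    have h1 : m.sum (fun _ e => e) ≤ P.totalDegree := MvPolynomial.le_totalDegree hm.1
    have h2 : M.card ≤ m.sum fun _ e => e := by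
      rw [← hm.2, card_eq_sum_ones, Finsupp.sum]
      calc ∑ i ∈ od m, 1 ≤ ∑ i ∈ od m, m i := by
            refine sum_le_sum fun i hi => ?_
            have := (mem_filter.1 hi).2
            exact this.pos
        _ ≤ ∑ i ∈ m.support, m i := by
            refine sum_le_sum_of_subset_of_nonneg ?_ (fun _ _ _ => Nat.zero_le _)
            intro i hi
            rw [Finsupp.mem_support_iff]
            have := (mem_filter.1 hi).2
            exact this.pos.ne'
    omega
  · intro z hz
    have hpow : ∀ (i : ι) (e : ℕ), z i ^ e = if Odd e then z i else 1 := by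
      intro i e
      rcases Nat.even_or_odd' e with ⟨k, h | h⟩
      · subst h
        rw [pow_mul, sq, hz, one_pow, if_neg]
        simp
      · subst h
        rw [pow_succ, pow_mul, sq, hz, one_pow, one_mul, if_pos]
        exact ⟨k, rfl⟩
    have hmon : ∀ m : ι →₀ ℕ, ∏ i, z i ^ m i = ∏ i ∈ od m, z i := by
      intro m
      rw [prod_filter]
      exact prod_congr rfl fun i _ => hpow i (m i)
    rw [MvPolynomial.eval_eq']
    have h1 : ∀ M : Finset ι, (∑ m ∈ P.support.filter (fun m => od m = M), P.coeff m) *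
        ∏ i ∈ M, z i = ∑ m ∈ P.support.filter (fun m => od m = M), P.coeff m * ∏ i, z i ^ m i := by
      intro M
      rw [sum_mul]
      refine sum_congr rfl fun m hm => ?_
      rw [hmon m, (mem_filter.1 hm).2]
    rw [sum_congr rfl fun M _ => h1 M]
    exact (sum_fiberwise_of_maps_to (fun m _ => mem_univ (od m)) _).symm

end mult

end Helper94K9.LD
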