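import Pool.Agent.Helper94K9.LD.Dim

/-!
# Lower bound for the degree in the labels
-/

set_option autoImplicit false
set_option linter.unusedSectionVars false

namespace Helper94K9.LD

open Finset Pool.Agent.TH661.LPX Pool.Agent.Y636.CL
open Pool.Agent.W964.Wd (IsDnf)

/-- The character. -/
noncomputable def ch {ι : Type} (S : Finset ι) (x : ι → Bool) : ℝ := ∏ p ∈ S, sg (x p)

theorem ch_mul_self {ι : Type} (S : Finset ι) (x : ι → Bool) : ch S x * ch S x = 1 := by
  unfold ch
  rw [← prod_mul_distrib]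
  exact prod_eq_one fun p _ => sg_mul_self _

theorem ch_sq {ι : Type} (S : Finset ι) (x : ι → Bool) : ch S x ^ 2 = 1 := by
  rw [sq, ch_mul_self]

section chars

variable {ι : Type} [Fintype ι] [DecidableEq ι]

theorem av_ch (S : Finset ι) : av (ch S) = if S = ∅ then 1 else 0 := by
  have h1 : ∀ x : ι → Bool, ch S x = ∏ p, (if p ∈ S then sg (x p) else 1) := by
    intro x
    unfold ch
    rw [prod_ite_mem, univ_inter]
  rw [av_congr h1, av_pi (fun p b => if p ∈ S then sg b else 1)]
  by_cases hS : S = ∅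
  · subst hS
    rw [if_pos rfl]
    refine prod_eq_one fun p _ => ?_
    simp only [notMem_empty, if_false]
    exact av_const 1
  · rw [if_neg hS]
    obtain ⟨p, hp⟩ := nonempty_iff_ne_empty.2 hS
    refine prod_eq_zero (mem_univ p) ?_
    simp only [hp, if_true]
    exact av_sg

theorem ch_mul (S S' : Finset ι) (x : ι → Bool) : ch S x * ch S' x = ch (symmDiff S S') x := by
  have h1 : ∀ T : Finset ι, ch T x = ∏ p, (if p ∈ T then sg (x p) else 1) := by
    intro T
    unfold ch
    rw [prod_ite_mem, univ_inter]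
  rw [h1, h1, h1, ← prod_mul_distrib]
  refine prod_congr rfl fun p _ => ?_
  by_cases h : p ∈ S <;> by_cases h' : p ∈ S' <;> simp [h, h', mem_symmDiff, sg_mul_self]

theorem av_ch_mul (S S' : Finset ι) :
    av (fun x => ch S x * ch S' x) = if S = S' then 1 else 0 := by
  rw [av_congr (ch_mul S S'), av_ch]
  by_cases h : S = S'
  · subst h; simp
  · rw [if_neg, if_neg h]
    intro h2
    exact h (symmDiff_eq_bot.1 h2)

end chars

theorem sg_tg' {n : ℕ} (S : Finset (Fin n)) (x : Fin n → Bool) : sg (tg S x) = ch S x := sg_tg S x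

/-- Cauchy Schwarz -/
theorem av_cs {Λ : Type} [Fintype Λ] {A p b : Λ → ℝ} (hp : ∀ l, 0 ≤ p l) (hb : ∀ l, 0 ≤ b l)
    (h : ∀ l, A l ^ 2 ≤ p l * b l) : av A ^ 2 ≤ av p * av b := by
  have h1 : (∑ l, A l) ^ 2 ≤ (∑ l, p l) * ∑ l, b l := by
    have h2 : |∑ l, A l| ≤ ∑ l, Real.sqrt (p l) * Real.sqrt (b l) := by
      refine (abs_sum_le_sum_abs _ _).trans (sum_le_sum fun l _ => ?_)
      rw [← Real.sqrt_mul (hp l)]
      exact Real.abs_le_sqrt (h l)
    have h3 := sum_mul_sq_le_sq_mul_sq univ (fun l => Real.sqrt (p l)) (fun l => Real.sqrt (b l))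
    simp only [Real.sq_sqrt (hp _), Real.sq_sqrt (hb _)] at h3
    refine le_trans ?_ h3
    rw [← sq_abs]
    exact pow_le_pow_left₀ (abs_nonneg _) h2 2
  unfold av
  rw [div_pow, div_mul_div_comm, ← sq]
  exact div_le_div_of_nonneg_right h1 (by positivity)

theorem card_small_le (N d : ℕ) :
    Fintype.card {T : Finset (Fin N) // T.card ≤ d} ≤ (N + 1) ^ d := by
  classical
  have h1 : Function.Surjective (fun g : Fin d → Option (Fin N) =>
      (⟨univ.filter (fun i : Fin N => ∃ a, g a = some i), by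
        calc _ ≤ (univ.image g).card := by
              refine card_le_card_of_injOn some ?_ (Option.some_injective _).injOn
              intro i hi
              obtain ⟨a, ha⟩ := (mem_filter.1 hi).2
              exact mem_coe.2 (mem_image.2 ⟨a, mem_univ _, ha⟩)
          _ ≤ d := by
              refine card_image_le.trans ?_
              simp⟩ : {T : Finset (Fin N) // T.card ≤ d})) := by
    rintro ⟨T, hT⟩
    let e := T.equivFin
    refine ⟨fun a => if h : (a : ℕ) < T.card then some (e.symm ⟨a, h⟩) else none, ?_⟩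
    apply Subtype.ext
    ext i
    simp only [mem_filter, mem_univ, true_and]
    constructor
    · rintro ⟨a, ha⟩
      by_cases h : (a : ℕ) < T.card
      · rw [dif_pos h] at ha
        rw [← Option.some_injective _ ha]
        exact (e.symm _).2
      · rw [dif_neg h] at ha
        exact absurd ha (by simp)
    · intro hi
      refine ⟨⟨e ⟨i, hi⟩, (e ⟨i, hi⟩).2.trans_le hT⟩, ?_⟩
      rw [dif_pos (e ⟨i, hi⟩).2]
      simp
  have h2 := Fintype.card_le_of_surjective _ h1
  rwa [Fintype.card_fun, Fintype.card_option, Fintype.card_fin, Fintype.card_fin] at h2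

section

variable {n N : ℕ} {R : Type} [Fintype R]

theorem corr_eq (L : Learner n N R) (f : (Fin n → Bool) → Bool) :
    corr L f = av fun l : R × (Fin N → Fin n → Bool) => av fun x =>
      L l.1 l.2 (fun i => f (l.2 i)) x * sg (f x) := by
  unfold corr
  rw [av_prod, av_prod]
  exact av_congr fun r => by rw [av_prod]

theorem sqMean_eq (L : Learner n N R) (f : (Fin n → Bool) → Bool) :
    sqMean L f = av fun l : R × (Fin N → Fin n → Bool) => av fun x =>
      L l.1 l.2 (fun i => f (l.2 i)) x ^ 2 := by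
  unfold sqMean
  rw [av_prod, av_prod]
  exact av_congr fun r => by rw [av_prod]

theorem sqMean_nonneg (L : Learner n N R) (f : (Fin n → Bool) → Bool) : 0 ≤ sqMean L f :=
  av_nonneg fun _ => sq_nonneg _

/-- The lower bound for the degree in the labels. -/
theorem label_lower [Nonempty R] {s k d : ℕ} (hk : 1 ≤ k) (hkn : k ≤ n) (hs : 2 ^ (k - 1) + 1 ≤ s)
    (L : Learner n N R) (hL : LabelDegree d L) :
    ∃ f, IsDnf s f ∧ corr L f ^ 2 ≤ ((N : ℝ) + 1) ^ d / n.choose k * sqMean L f := by
  classical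
  choose P hP1 hP2 using hL
  have h0 := fun r X x => mult_form (P r X x) (hP1 r X x)
  choose c hc1 hc2 using h0
  let 𝒮 : Finset (Finset (Fin n)) := powersetCard k univ
  have hcard : 𝒮.card = n.choose k := by simp [𝒮]
  have hch : (0 : ℝ) < n.choose k := by exact_mod_cast Nat.choose_pos hkn
  have h1 := fun (l : R × (Fin N → Fin n → Bool)) =>
    dim_bound (fun (T : {T : Finset (Fin N) // T.card ≤ d}) (x : Fin n → Bool) => c l.1 l.2 x T)
      𝒮 ch (fun S _ S' _ => av_ch_mul S S')
  choose π hπ0 hπ1 hπ2 using h1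
  -- value of the learner
  have hval : ∀ (l : R × (Fin N → Fin n → Bool)) (y : Fin N → Bool) (x : Fin n → Bool),
      L l.1 l.2 y x = ∑ T : {T : Finset (Fin N) // T.card ≤ d}, ch T.1 y * c l.1 l.2 x T := by
    intro l y x
    rw [hP2, hc2 l.1 l.2 x _ (fun i => sg_mul_self _)]
    rw [← Finset.sum_subtype (univ.filter fun T : Finset (Fin N) => T.card ≤ d)
      (fun T => by simp) (fun T => ch T y * c l.1 l.2 x T)]
    rw [sum_filter]
    refine sum_congr rfl fun M _ => ?_
    split_ifs with h
    · rw [mul_comm]; rfl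
    · rw [hc1 l.1 l.2 x M (not_le.1 h), zero_mul]
  -- the bound for one parity
  have hone : ∀ S : Finset (Fin n), corr L (tg S) ^ 2 ≤ av (fun l => π l S) * sqMean L (tg S) := by
    intro S
    rw [corr_eq, sqMean_eq]
    refine av_cs (fun l => hπ0 l S) (fun l => av_nonneg fun _ => sq_nonneg _) fun l => ?_
    have h2 := hπ2 l S (fun T => ch T.1 fun i => tg S (l.2 i))
    simp only [hval, sg_tg']
    exact h2
  -- averaging
  have hsum : ∑ S ∈ 𝒮, av (fun l => π l S) ≤ ((N : ℝ) + 1) ^ d := by
    rw [← av_sum]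
    refine av_le_const fun l => (hπ1 l).trans ?_
    exact_mod_cast card_small_le N d
  by_contra hcon
  push Not at hcon
  have hall : ∀ S ∈ 𝒮, ((N : ℝ) + 1) ^ d / n.choose k < av (fun l => π l S) := by
    intro S hS
    by_contra hle
    rw [not_lt] at hle
    have hcS : S.card = k := (mem_powersetCard.1 hS).2
    have h3 := hcon (tg S) (tg_dnf hcS hk hs)
    have h4 := (hone S).trans (mul_le_mul_of_nonneg_right hle (sqMean_nonneg L _))
    linarith
  have h5 : ∑ S ∈ 𝒮, ((N : ℝ) + 1) ^ d / n.choose k < ∑ S ∈ 𝒮, av (fun l => π l S) := by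
    refine sum_lt_sum_of_nonempty ?_ hall
    rw [← card_pos, hcard]
    exact Nat.choose_pos hkn
  rw [sum_const, nsmul_eq_mul, hcard, mul_div_cancel₀ _ hch.ne'] at h5
  linarith

end

end Helper94K9.LD
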