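import Pool.Agent.Helper94K9.LD.Lab

/-!
# Lower bound for the degree in all the bits of the sample
-/

set_option autoImplicit false
set_option linter.unusedSectionVars false

namespace Helper94K9.LD

open Finset Pool.Agent.TH661.LPX Pool.Agent.Y636.CL
open Pool.Agent.W964.Wd (IsDnf)

section poly

variable {ι : Type} [Fintype ι] [DecidableEq ι]

/-- a multilinear polynomial -/
noncomputable def pl (c : Finset ι → ℝ) (z : ι → Bool) : ℝ := ∑ M, c M * ch M z

theorem av_pl_mul (c : Finset ι → ℝ) (M : Finset ι) : av (fun z => pl c z * ch M z) = c M := by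
  have h1 : ∀ z, pl c z * ch M z = ∑ M', c M' * (ch M' z * ch M z) := by
    intro z
    unfold pl
    rw [sum_mul]
    exact sum_congr rfl fun _ _ => by ring
  rw [av_congr h1, av_sum]
  have h2 : ∀ M', av (fun z => c M' * (ch M' z * ch M z)) = if M' = M then c M' else 0 := by
    intro M'
    rw [av_mul_left, av_ch_mul]
    split_ifs <;> simp
  rw [sum_congr rfl fun M' _ => h2 M', sum_ite_eq' univ M c]
  simp

theorem av_pl_sq (c : Finset ι → ℝ) : av (fun z => pl c z ^ 2) = ∑ M, c M ^ 2 := by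
  have h1 : ∀ z, pl c z ^ 2 = ∑ M, c M * (pl c z * ch M z) := by
    intro z
    have : pl c z ^ 2 = pl c z * ∑ M, c M * ch M z := by rw [sq]; rfl
    rw [this, mul_sum]
    exact sum_congr rfl fun _ _ => by ring
  rw [av_congr h1, av_sum]
  refine sum_congr rfl fun M _ => ?_
  rw [av_mul_left, av_pl_mul, sq]

theorem av_pl_fourth {D : ℕ} (c : Finset ι → ℝ) (hc : ∀ M, D < M.card → c M = 0) :
    av (fun z => pl c z ^ 4) ≤ 16 ^ D * (∑ M, c M ^ 2) ^ 2 := by
  have h1 := poly_moment c (N := 2) (by norm_num)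
  have h2 : av (fun z => pl c z ^ 4) ≤ (∑ M : Finset ι, 4 ^ M.card * c M ^ 2) ^ 2 := by
    refine le_trans (le_of_eq ?_) (h1.trans (le_of_eq ?_))
    · rfl
    · norm_num
  refine h2.trans ?_
  have h3 : ∑ M : Finset ι, (4 : ℝ) ^ M.card * c M ^ 2 ≤ 4 ^ D * ∑ M, c M ^ 2 := by
    rw [mul_sum]
    refine sum_le_sum fun M _ => ?_
    by_cases h : D < M.card
    · rw [hc M h]; simp
    · exact mul_le_mul_of_nonneg_right (pow_le_pow_right₀ (by norm_num) (not_lt.1 h)) (sq_nonneg _)
  have h4 : (0 : ℝ) ≤ ∑ M : Finset ι, (4 : ℝ) ^ M.card * c M ^ 2 :=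
    sum_nonneg fun M _ => by positivity
  calc _ ≤ (4 ^ D * ∑ M, c M ^ 2) ^ 2 := pow_le_pow_left₀ h4 h3 2
    _ = 16 ^ D * (∑ M, c M ^ 2) ^ 2 := by
      rw [mul_pow, ← pow_mul, mul_comm D 2, pow_mul]; norm_num

theorem card_symmDiff_le (A B : Finset ι) : (symmDiff A B).card ≤ A.card + B.card := by
  calc (symmDiff A B).card ≤ (A ∪ B).card := by
        refine card_le_card ?_
        intro x hx
        rw [mem_symmDiff] at hx
        rw [mem_union]
        tauto
    _ ≤ _ := card_union_le _ _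

theorem av_sq_ch {D : ℕ} (c : Finset ι → ℝ) (hc : ∀ M, D < M.card → c M = 0) (M : Finset ι)
    (hM : 2 * D < M.card) : av (fun z => pl c z ^ 2 * ch M z) = 0 := by
  have h1 : ∀ z, pl c z ^ 2 * ch M z = ∑ A, ∑ B, c A * c B * (ch (symmDiff A B) z * ch M z) := by
    intro z
    unfold pl
    rw [sq, sum_mul_sum, sum_mul]
    refine sum_congr rfl fun A _ => ?_
    rw [sum_mul]
    refine sum_congr rfl fun B _ => ?_
    rw [← ch_mul]
    ring
  rw [av_congr h1, av_sum]
  refine sum_eq_zero fun A _ => ?_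
  rw [av_sum]
  refine sum_eq_zero fun B _ => ?_
  rw [av_mul_left, av_ch_mul]
  by_cases hA : D < A.card
  · rw [hc A hA]; ring
  by_cases hB : D < B.card
  · rw [hc B hB]; ring
  rw [if_neg, mul_zero]
  intro h
  have := card_symmDiff_le A B
  rw [h] at this
  omega

/-- Bessel -/
theorem bessel (𝒮 : Finset (Finset ι)) (g : (ι → Bool) → ℝ) :
    ∑ S ∈ 𝒮, av (fun x => ch S x * g x) ^ 2 ≤ av (fun x => g x ^ 2) := by
  set a : Finset ι → ℝ := fun S => if S ∈ 𝒮 then av (fun x => ch S x * g x) else 0 with ha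
  have h0 : 0 ≤ av (fun x => (g x - pl a x) ^ 2) := av_nonneg fun _ => sq_nonneg _
  have h1 : ∀ x, (g x - pl a x) ^ 2 = g x ^ 2 - 2 * (∑ S, a S * (ch S x * g x)) + pl a x ^ 2 := by
    intro x
    have : ∑ S, a S * (ch S x * g x) = pl a x * g x := by
      unfold pl
      rw [sum_mul]
      exact sum_congr rfl fun _ _ => by ring
    rw [this]; ring
  have h2 : av (fun x => ∑ S, a S * (ch S x * g x)) = ∑ S ∈ 𝒮, av (fun x => ch S x * g x) ^ 2 := by
    rw [av_sum]
    have h3 : ∀ S, av (fun x => a S * (ch S x * g x)) =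
        if S ∈ 𝒮 then av (fun x => ch S x * g x) ^ 2 else 0 := by
      intro S
      rw [av_mul_left]
      simp only [ha]
      split_ifs <;> ring
    rw [sum_congr rfl fun S _ => h3 S, sum_ite_mem, univ_inter]
  have h4 : ∑ S, a S ^ 2 = ∑ S ∈ 𝒮, av (fun x => ch S x * g x) ^ 2 := by
    have h3 : ∀ S, a S ^ 2 = if S ∈ 𝒮 then av (fun x => ch S x * g x) ^ 2 else 0 := by
      intro S
      simp only [ha]
      split_ifs <;> ring
    rw [sum_congr rfl fun S _ => h3 S, sum_ite_mem, univ_inter]
  rw [av_congr h1, av_add, av_sub, av_mul_left, h2, av_pl_sq, h4] at h0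
  linarith

end poly

section density

variable {n N : ℕ}

/-- The bits of a sample. -/
def join (X : Fin N → Fin n → Bool) (y : Fin N → Bool) : Fin N × Option (Fin n) → Bool :=
  fun p => p.2.elim (y p.1) (X p.1)

theorem bits_eq (X : Fin N → Fin n → Bool) (y : Fin N → Bool) (p : Fin N × Option (Fin n)) :
    bits X y p = sg (join X y p) := by
  obtain ⟨i, o⟩ := p
  cases o <;> rfl

/-- samples -/
def splitE : (Fin N × Option (Fin n) → Bool) ≃ (Fin N → Fin n → Bool) × (Fin N → Bool) where
  toFun z := (fun i j => z (i, some j), fun i => z (i, none))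
  invFun q := join q.1 q.2
  left_inv z := by
    funext p
    obtain ⟨i, o⟩ := p
    cases o <;> rfl
  right_inv q := rfl

theorem av_split (F : (Fin N × Option (Fin n) → Bool) → ℝ) :
    av F = av fun X : Fin N → Fin n → Bool => av fun y : Fin N → Bool => F (join X y) := by
  rw [← av_prod (fun q : (Fin N → Fin n → Bool) × (Fin N → Bool) => F (join q.1 q.2))]
  exact (av_equiv (splitE (n := n) (N := N)).symm F).symm

/-- the bits of the examples in `T` which belong to `S` and the labels -/
def blk (T : Finset (Fin N)) (S : Finset (Fin n)) : Finset (Fin N × Option (Fin n)) :=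
  T ×ˢ insertNone S

theorem card_blk (T : Finset (Fin N)) (S : Finset (Fin n)) :
    (blk T S).card = T.card * (S.card + 1) := by
  unfold blk
  rw [card_product, card_insertNone]

theorem ch_blk (T : Finset (Fin N)) (S : Finset (Fin n)) (X : Fin N → Fin n → Bool)
    (y : Fin N → Bool) : ch (blk T S) (join X y) = ∏ i ∈ T, (sg (y i) * ch S (X i)) := by
  unfold ch blk
  rw [prod_product]
  refine prod_congr rfl fun i _ => ?_
  rw [prod_insertNone]
  rfl

theorem density (S : Finset (Fin n)) (G : (Fin N × Option (Fin n) → Bool) → ℝ) :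
    av (fun z => G z * ∑ T : Finset (Fin N), ch (blk T S) z) =
      av fun X : Fin N → Fin n → Bool => G (join X fun i => tg S (X i)) := by
  classical
  rw [av_split]
  refine av_congr fun X => ?_
  have h1 : ∀ y : Fin N → Bool, ∑ T : Finset (Fin N), ch (blk T S) (join X y) =
      if y = (fun i => tg S (X i)) then 2 ^ N else 0 := by
    intro y
    have h2 : ∑ T : Finset (Fin N), ch (blk T S) (join X y) =
        ∏ i, (1 + sg (y i) * ch S (X i)) := by
      rw [prod_one_add, powerset_univ]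
      exact sum_congr rfl fun T _ => ch_blk T S X y
    rw [h2]
    by_cases h : y = fun i => tg S (X i)
    · rw [if_pos h]
      have h3 : ∀ i, (1 + sg (y i) * ch S (X i)) = 2 := by
        intro i
        rw [h, sg_tg', ch_mul_self]; norm_num
      rw [prod_congr rfl fun i _ => h3 i]
      simp
    · rw [if_neg h]
      obtain ⟨i, hi⟩ := Function.ne_iff.1 h
      refine prod_eq_zero (mem_univ i) ?_
      rw [← sg_tg']
      cases hy : y i <;> cases ht : tg S (X i) <;> simp [hy, ht, Pool.Agent.TH661.LPX.sg] at hi ⊢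
  unfold av
  simp only [h1]
  have h4 : ∀ y : Fin N → Bool, G (join X y) * (if y = (fun i => tg S (X i)) then 2 ^ N else 0) =
      if y = (fun i => tg S (X i)) then G (join X y) * 2 ^ N else 0 := by
    intro y; split_ifs <;> simp
  rw [sum_congr rfl fun y _ => h4 y, sum_ite_eq' univ (fun i => tg S (X i))]
  simp only [mem_univ, if_true, Fintype.card_fun, Fintype.card_bool, Fintype.card_fin]
  push_cast
  rw [mul_div_assoc, div_self (by positivity), mul_one]

theorem blk_inj {T T' : Finset (Fin N)} {S S' : Finset (Fin n)} (hT : T.Nonempty)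
    (h : blk T S = blk T' S') : T = T' ∧ S = S' := by
  have h1 : ∀ i, i ∈ T ↔ i ∈ T' := by
    intro i
    have := congrArg (fun M => (i, (none : Option (Fin n))) ∈ M) h
    simpa [blk] using this
  have h2 : T = T' := by ext i; exact h1 i
  refine ⟨h2, ?_⟩
  obtain ⟨i, hi⟩ := hT
  ext j
  have := congrArg (fun M => (i, (some j : Option (Fin n))) ∈ M) h
  simpa [blk, hi, (h1 i).1 hi] using this

end density

section main

variable {n N : ℕ} {R : Type} [Fintype R]

/-- subsets of at most `τ` elements -/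
def sm (N τ : ℕ) : Finset (Finset (Fin N)) := univ.filter fun T => T.card ≤ τ

theorem card_sm (N τ : ℕ) : (sm N τ).card ≤ (N + 1) ^ τ := by
  refine le_trans (le_of_eq ?_) (card_small_le N τ)
  rw [Fintype.card_subtype]
  rfl

theorem corr_eq' (L : Learner n N R) (f : (Fin n → Bool) → Bool) :
    corr L f = av fun l : R × (Fin n → Bool) => sg (f l.2) * av fun X : Fin N → Fin n → Bool =>
      L l.1 X (fun i => f (X i)) l.2 := by
  unfold corr
  rw [av_prod, av_prod]
  refine av_congr fun r => ?_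
  rw [av_prod, av_comm]
  refine av_congr fun x => ?_
  rw [← av_mul_left]
  exact av_congr fun X => by ring

theorem sqMean_eq' (L : Learner n N R) (f : (Fin n → Bool) → Bool) :
    sqMean L f = av fun l : R × (Fin n → Bool) => av fun X : Fin N → Fin n → Bool =>
      L l.1 X (fun i => f (X i)) l.2 ^ 2 := by
  unfold sqMean
  rw [av_prod, av_prod]
  refine av_congr fun r => ?_
  rw [av_prod, av_comm]

/-- upper bound for the correlations -/
theorem sum_corr_sq {k D : ℕ} (c : R × (Fin n → Bool) → Finset (Fin N × Option (Fin n)) → ℝ)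
    (hc : ∀ l M, D < M.card → c l M = 0) :
    ∑ S ∈ powersetCard k (univ : Finset (Fin n)),
      av (fun l : R × (Fin n → Bool) => ch S l.2 * ∑ T, c l (blk T S)) ^ 2 ≤
      ((N : ℝ) + 1) ^ (D / (k + 1)) * av fun l => ∑ M, c l M ^ 2 := by
  classical
  set τ := D / (k + 1) with hτ
  set 𝒮 := powersetCard k (univ : Finset (Fin n)) with h𝒮
  let u : Finset (Fin N) → Finset (Fin n) → ℝ := fun T S => av fun l => ch S l.2 * c l (blk T S)
  -- only few `T`
  have h1 : ∀ S ∈ 𝒮, av (fun l : R × (Fin n → Bool) => ch S l.2 * ∑ T, c l (blk T S)) =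
      ∑ T ∈ sm N τ, u T S := by
    intro S hS
    have hS' : S.card = k := (mem_powersetCard.1 hS).2
    rw [← av_sum]
    refine av_congr fun l => ?_
    rw [mul_sum]
    unfold sm
    rw [sum_filter]
    refine sum_congr rfl fun T _ => ?_
    split_ifs with h
    · rfl
    · rw [hc, mul_zero]
      rw [card_blk, hS']
      rw [not_le, hτ, Nat.div_lt_iff_lt_mul (by omega)] at h
      exact h
  have h2 : ∀ S ∈ 𝒮, av (fun l : R × (Fin n → Bool) => ch S l.2 * ∑ T, c l (blk T S)) ^ 2 ≤
      ((N : ℝ) + 1) ^ τ * ∑ T ∈ sm N τ, u T S ^ 2 := by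
    intro S hS
    rw [h1 S hS]
    refine sq_sum_le_card_mul_sum_sq.trans ?_
    refine mul_le_mul_of_nonneg_right ?_ (sum_nonneg fun _ _ => sq_nonneg _)
    exact_mod_cast card_sm N τ
  refine (sum_le_sum h2).trans ?_
  rw [← mul_sum]
  refine mul_le_mul_of_nonneg_left ?_ (by positivity)
  rw [sum_comm]
  -- the empty set
  have h3 : ∑ S ∈ 𝒮, u ∅ S ^ 2 ≤ av fun l => c l ∅ ^ 2 := by
    have h4 : ∀ S ∈ 𝒮, u ∅ S ^ 2 ≤ av fun r : R => av (fun x => ch S x * c (r, x) ∅) ^ 2 := by
      intro S _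
      have h5 : u ∅ S = av fun r : R => av fun x => ch S x * c (r, x) ∅ := by
        simp only [u]
        rw [av_prod]
        refine av_congr fun r => av_congr fun x => ?_
        simp [blk]
      rw [h5]
      have h6 := av_cs (A := fun r : R => av fun x => ch S x * c (r, x) ∅) (p := fun _ => 1)
        (b := fun r : R => av (fun x => ch S x * c (r, x) ∅) ^ 2) (fun _ => zero_le_one)
        (fun _ => sq_nonneg _) (fun r => by simp)
      refine h6.trans ?_
      have h7 : av (fun _ : R => (1 : ℝ)) ≤ 1 := by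
        unfold av
        rw [sum_const, card_univ, nsmul_eq_mul, mul_one]
        exact div_self_le_one _
      calc _ ≤ 1 * av (fun r : R => av (fun x => ch S x * c (r, x) ∅) ^ 2) :=
            mul_le_mul_of_nonneg_right h7 (av_nonneg fun _ => sq_nonneg _)
        _ = _ := one_mul _
    refine (sum_le_sum h4).trans ?_
    rw [← av_sum, av_prod (fun l : R × (Fin n → Bool) => c l ∅ ^ 2)]
    exact av_mono fun r => bessel 𝒮 fun x => c (r, x) ∅
  -- the others
  have h4 : ∀ T S, u T S ^ 2 ≤ av fun l => c l (blk T S) ^ 2 := by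
    intro T S
    have h6 := av_cs (A := fun l : R × (Fin n → Bool) => ch S l.2 * c l (blk T S))
      (p := fun _ => 1) (b := fun l => c l (blk T S) ^ 2) (fun _ => zero_le_one)
      (fun _ => sq_nonneg _) (fun l => by rw [mul_pow, ch_sq])
    refine h6.trans ?_
    have h7 : av (fun _ : R × (Fin n → Bool) => (1 : ℝ)) ≤ 1 := by
      unfold av
      rw [sum_const, card_univ, nsmul_eq_mul, mul_one]
      exact div_self_le_one _
    calc _ ≤ 1 * av (fun l => c l (blk T S) ^ 2) :=
          mul_le_mul_of_nonneg_right h7 (av_nonneg fun _ => sq_nonneg _)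
      _ = _ := one_mul _
  have hmem : (∅ : Finset (Fin N)) ∈ sm N τ := by simp [sm]
  rw [← add_sum_erase _ _ hmem]
  have h5 : ∑ T ∈ (sm N τ).erase ∅, ∑ S ∈ 𝒮, u T S ^ 2 ≤
      av fun l => ∑ M ∈ univ.erase ∅, c l M ^ 2 := by
    calc _ ≤ ∑ T ∈ (sm N τ).erase ∅, ∑ S ∈ 𝒮, av (fun l => c l (blk T S) ^ 2) :=
          sum_le_sum fun T _ => sum_le_sum fun S _ => h4 T S
      _ = ∑ q ∈ (sm N τ).erase ∅ ×ˢ 𝒮, av (fun l => c l (blk q.1 q.2) ^ 2) := by
          rw [sum_product]
      _ = av fun l => ∑ q ∈ (sm N τ).erase ∅ ×ˢ 𝒮, c l (blk q.1 q.2) ^ 2 := by rw [av_sum]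
      _ ≤ _ := by
          refine av_mono fun l => ?_
          have hinj : Set.InjOn (fun q : Finset (Fin N) × Finset (Fin n) => blk q.1 q.2)
              ((sm N τ).erase ∅ ×ˢ 𝒮 : Finset _) := by
            rintro ⟨T, S⟩ hq ⟨T', S'⟩ _ h
            have hT : T.Nonempty := by
              rw [mem_coe, mem_product] at hq
              exact nonempty_iff_ne_empty.2 (mem_erase.1 hq.1).1
            obtain ⟨h8, h9⟩ := blk_inj hT h
            exact Prod.ext h8 h9
          rw [← sum_image (f := fun M => c l M ^ 2) hinj]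
          refine sum_le_sum_of_subset_of_nonneg ?_ fun _ _ _ => sq_nonneg _
          intro M hM
          obtain ⟨⟨T, S⟩, hq, rfl⟩ := mem_image.1 hM
          rw [mem_product] at hq
          refine mem_erase.2 ⟨?_, mem_univ _⟩
          intro h8
          have h9 := card_blk T S
          simp only at h8
          rw [h8, card_empty] at h9
          have h10 : T.card = 0 := by
            rcases Nat.mul_eq_zero.1 h9.symm with h | h
            · exact h
            · omega
          exact (mem_erase.1 hq.1).1 (card_eq_zero.1 h10)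
  calc _ ≤ av (fun l => c l ∅ ^ 2) + av (fun l => ∑ M ∈ univ.erase ∅, c l M ^ 2) :=
        add_le_add h3 h5
    _ = av fun l => ∑ M, c l M ^ 2 := by
        rw [← av_add]
        exact av_congr fun l => add_sum_erase univ (fun M => c l M ^ 2) (mem_univ ∅)

/-- lower bound for the square means -/
theorem sum_sq_lower {k D : ℕ}
    (hD : 4 * 16 ^ D * (N + 1) ^ (2 * D / (k + 1)) ≤ n.choose k)
    (c : Finset (Fin N × Option (Fin n)) → ℝ) (hc : ∀ M, D < M.card → c M = 0) :
    (n.choose k : ℝ) / 2 * ∑ M, c M ^ 2 ≤ ∑ S ∈ powersetCard k (univ : Finset (Fin n)),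
      av (fun z => pl c z ^ 2 * ∑ T : Finset (Fin N), ch (blk T S) z) := by
  classical
  set τ := 2 * D / (k + 1) with hτ
  set 𝒮 := powersetCard k (univ : Finset (Fin n)) with h𝒮
  have hcard : (𝒮.card : ℝ) = n.choose k := by simp [𝒮]
  set q : ℝ := ∑ M, c M ^ 2 with hq
  have hq0 : 0 ≤ q := sum_nonneg fun _ _ => sq_nonneg _
  have hmem : (∅ : Finset (Fin N)) ∈ sm N τ := by simp [sm]
  let J : Finset (Finset (Fin N) × Finset (Fin n)) := (sm N τ).erase ∅ ×ˢ 𝒮
  let W : (Fin N × Option (Fin n) → Bool) → ℝ := fun z => ∑ p ∈ J, ch (blk p.1 p.2) z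
  have h1 : ∀ S ∈ 𝒮, av (fun z => pl c z ^ 2 * ∑ T : Finset (Fin N), ch (blk T S) z) =
      q + ∑ T ∈ (sm N τ).erase ∅, av (fun z => pl c z ^ 2 * ch (blk T S) z) := by
    intro S hS
    have hS' : S.card = k := (mem_powersetCard.1 hS).2
    have h2 : ∀ z, pl c z ^ 2 * ∑ T : Finset (Fin N), ch (blk T S) z =
        ∑ T, pl c z ^ 2 * ch (blk T S) z := fun z => mul_sum _ _ _
    rw [av_congr h2, av_sum]
    have h3 : ∀ T : Finset (Fin N), av (fun z => pl c z ^ 2 * ch (blk T S) z) =
        if T ∈ sm N τ then av (fun z => pl c z ^ 2 * ch (blk T S) z) else 0 := by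
      intro T
      split_ifs with h
      · rfl
      · refine av_sq_ch c hc _ ?_
        rw [card_blk, hS']
        have h4 : ¬ T.card ≤ τ := by simpa [sm] using h
        rw [not_le, hτ, Nat.div_lt_iff_lt_mul (by omega)] at h4
        exact h4
    rw [sum_congr rfl fun T _ => h3 T, sum_ite_mem, univ_inter, ← add_sum_erase _ _ hmem]
    congr 1
    rw [hq, ← av_pl_sq]
    refine av_congr fun z => ?_
    simp [blk, ch]
  have h2 : ∑ S ∈ 𝒮, av (fun z => pl c z ^ 2 * ∑ T : Finset (Fin N), ch (blk T S) z) =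
      n.choose k * q + av (fun z => pl c z ^ 2 * W z) := by
    rw [sum_congr rfl h1, sum_add_distrib, sum_const, nsmul_eq_mul, hcard]
    congr 1
    rw [sum_comm]
    have h3 : ∀ z, pl c z ^ 2 * W z = ∑ p ∈ J, pl c z ^ 2 * ch (blk p.1 p.2) z :=
      fun z => mul_sum _ _ _
    rw [av_congr h3, av_sum, sum_product]
  have hinj : Set.InjOn (fun q : Finset (Fin N) × Finset (Fin n) => blk q.1 q.2) (J : Set _) := by
    rintro ⟨T, S⟩ hq ⟨T', S'⟩ _ h
    have hT : T.Nonempty := by
      rw [mem_coe, mem_product] at hq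
      exact nonempty_iff_ne_empty.2 (mem_erase.1 hq.1).1
    obtain ⟨h8, h9⟩ := blk_inj hT h
    exact Prod.ext h8 h9
  have hW : av (fun z => W z ^ 2) ≤ (n.choose k : ℝ) * ((N : ℝ) + 1) ^ τ := by
    have h3 : ∀ z, W z ^ 2 = ∑ p ∈ J, ∑ p' ∈ J, ch (blk p.1 p.2) z * ch (blk p'.1 p'.2) z := by
      intro z
      rw [sq]
      exact sum_mul_sum _ _ _ _
    rw [av_congr h3, av_sum]
    have h4 : ∀ p ∈ J, av (fun z => ∑ p' ∈ J, ch (blk p.1 p.2) z * ch (blk p'.1 p'.2) z) = 1 := by
      intro p hp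
      rw [av_sum]
      have h5 : ∀ p' ∈ J, av (fun z => ch (blk p.1 p.2) z * ch (blk p'.1 p'.2) z) =
          if p = p' then 1 else 0 := by
        intro p' hp'
        rw [av_ch_mul]
        by_cases h : p = p'
        · subst h; simp
        · rw [if_neg h, if_neg]
          intro h6
          exact h (hinj hp hp' h6)
      rw [sum_congr rfl h5, sum_ite_eq J p, if_pos hp]
    rw [sum_congr rfl h4, sum_const, nsmul_eq_mul, mul_one]
    have h5 : (J.card : ℝ) = ((sm N τ).erase ∅).card * 𝒮.card := by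
      rw [card_product]; push_cast; rfl
    rw [h5, hcard, mul_comm]
    refine mul_le_mul_of_nonneg_left ?_ (by positivity)
    calc (((sm N τ).erase ∅).card : ℝ) ≤ (sm N τ).card := by exact_mod_cast card_erase_le
      _ ≤ _ := by exact_mod_cast card_sm N τ
  have h4 := av_pl_fourth c hc
  have h5 : av (fun z => pl c z ^ 2 * W z) ^ 2 ≤
      av (fun z => pl c z ^ 4) * av (fun z => W z ^ 2) := by
    refine av_cs (fun z => by positivity) (fun z => sq_nonneg _) fun z => ?_
    rw [mul_pow, ← pow_mul]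
  have hD' : 4 * 16 ^ D * ((N : ℝ) + 1) ^ τ ≤ n.choose k := by exact_mod_cast hD
  have hC : (0 : ℝ) ≤ n.choose k := by positivity
  have h6 : av (fun z => pl c z ^ 2 * W z) ^ 2 ≤ ((n.choose k : ℝ) / 2 * q) ^ 2 := by
    calc _ ≤ (16 ^ D * q ^ 2) * ((n.choose k : ℝ) * ((N : ℝ) + 1) ^ τ) := by
          refine h5.trans (mul_le_mul h4 hW (av_nonneg fun _ => sq_nonneg _) (by positivity))
      _ = (16 ^ D * ((N : ℝ) + 1) ^ τ) * (q ^ 2 * n.choose k) := by ring
      _ ≤ ((n.choose k : ℝ) / 4) * (q ^ 2 * n.choose k) := by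
          refine mul_le_mul_of_nonneg_right ?_ (by positivity)
          linarith
      _ = _ := by ring
  have h7 := abs_le_of_sq_le_sq' h6 (by positivity)
  rw [h2]
  linarith [h7.1]

/-- The lower bound for the degree in all the bits. -/
theorem sample_lower [Nonempty R] {s k D : ℕ} (hk : 1 ≤ k) (hkn : k ≤ n)
    (hs : 2 ^ (k - 1) + 1 ≤ s) (hD : 4 * 16 ^ D * (N + 1) ^ (2 * D / (k + 1)) ≤ n.choose k)
    (L : Learner n N R) (hL : SampleDegree D L) :
    ∃ f, IsDnf s f ∧
      corr L f ^ 2 ≤ 2 * ((N : ℝ) + 1) ^ (D / (k + 1)) / n.choose k * sqMean L f := by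
  classical
  choose P hP1 hP2 using hL
  have h0 := fun r x => mult_form (P r x) (hP1 r x)
  choose c₀ hc1 hc2 using h0
  let c : R × (Fin n → Bool) → Finset (Fin N × Option (Fin n)) → ℝ := fun l => c₀ l.1 l.2
  have hc : ∀ l M, D < M.card → c l M = 0 := fun l => hc1 l.1 l.2
  have hch : (0 : ℝ) < n.choose k := by exact_mod_cast Nat.choose_pos hkn
  have hval : ∀ (l : R × (Fin n → Bool)) X y, L l.1 X y l.2 = pl (c l) (join X y) := by
    intro l X y
    have h1 : bits X y = fun p => sg (join X y p) := funext fun p => bits_eq X y p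
    rw [hP2, h1, hc2 l.1 l.2 _ (fun i => sg_mul_self _)]
    rfl
  have hcorr : ∀ S : Finset (Fin n), corr L (tg S) =
      av fun l : R × (Fin n → Bool) => ch S l.2 * ∑ T, c l (blk T S) := by
    intro S
    rw [corr_eq']
    refine av_congr fun l => ?_
    rw [sg_tg']
    congr 1
    rw [av_congr fun X => hval l X _, ← density S (pl (c l))]
    have h1 : ∀ z, pl (c l) z * ∑ T : Finset (Fin N), ch (blk T S) z =
        ∑ T, pl (c l) z * ch (blk T S) z := fun z => mul_sum _ _ _
    rw [av_congr h1, av_sum]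
    exact sum_congr rfl fun T _ => av_pl_mul _ _
  have hsq : ∀ S : Finset (Fin n), sqMean L (tg S) = av fun l : R × (Fin n → Bool) =>
      av fun z => pl (c l) z ^ 2 * ∑ T : Finset (Fin N), ch (blk T S) z := by
    intro S
    rw [sqMean_eq']
    refine av_congr fun l => ?_
    rw [density S fun z => pl (c l) z ^ 2]
    exact av_congr fun X => by rw [hval]
  have hA := sum_corr_sq (k := k) c hc
  have hB : (n.choose k : ℝ) / 2 * av (fun l => ∑ M, c l M ^ 2) ≤
      ∑ S ∈ powersetCard k (univ : Finset (Fin n)), sqMean L (tg S) := by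
    rw [sum_congr rfl fun S _ => hsq S, ← av_sum, ← av_mul_left]
    exact av_mono fun l => sum_sq_lower hD (c l) (hc l)
  by_contra hcon
  push Not at hcon
  set K : ℝ := 2 * ((N : ℝ) + 1) ^ (D / (k + 1)) / n.choose k with hK
  have h1 : ∑ S ∈ powersetCard k (univ : Finset (Fin n)), K * sqMean L (tg S) <
      ∑ S ∈ powersetCard k (univ : Finset (Fin n)), corr L (tg S) ^ 2 := by
    refine sum_lt_sum_of_nonempty ?_ fun S hS => hcon (tg S) (tg_dnf (mem_powersetCard.1 hS).2 hk hs)
    rw [← card_pos, card_powersetCard, card_univ, Fintype.card_fin]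
    exact Nat.choose_pos hkn
  have h2 : ∑ S ∈ powersetCard k (univ : Finset (Fin n)), corr L (tg S) ^ 2 ≤
      ((N : ℝ) + 1) ^ (D / (k + 1)) * av fun l => ∑ M, c l M ^ 2 := by
    rw [sum_congr rfl fun S _ => by rw [hcorr S]]
    exact hA
  rw [← mul_sum] at h1
  have h3 : ((N : ℝ) + 1) ^ (D / (k + 1)) * av (fun l => ∑ M, c l M ^ 2) ≤
      K * ∑ S ∈ powersetCard k (univ : Finset (Fin n)), sqMean L (tg S) := by
    have hK0 : 0 ≤ K := by positivity
    calc _ = K * ((n.choose k : ℝ) / 2 * av (fun l => ∑ M, c l M ^ 2)) := by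
          rw [hK]; field_simp
      _ ≤ _ := mul_le_mul_of_nonneg_left hB hK0
  linarith

end main

end Helper94K9.LD
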