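import Pool.Agent.Helper94K9.LD.Weak
import Pool.Agent.TH661.LPX.Mom

/-!
# The learner
-/

set_option autoImplicit false
set_option linter.unusedSectionVars false

namespace Helper94K9.LD

open Finset Pool.Agent.TH661.LPX Pool.Agent.Y636.CL
open Pool.Agent.W964.Wd (IsDnf)

/-- the variables outside an embedding do not matter -/
theorem av_emb {I J A : Type} [Fintype I] [DecidableEq I] [Fintype J] [DecidableEq J] [Fintype A]
    [DecidableEq A] [Nonempty A] (e : J ↪ I) (F : (J → A) → ℝ) :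
    av (fun X : I → A => F (fun j => X (e j))) = av F := by
  classical
  let E := Equiv.piEquivPiSubtypeProd (fun i : I => i ∈ Set.range e) (fun _ => A)
  have h1 := av_equiv E (fun q : ({i : I // i ∈ Set.range e} → A) × ({i : I // ¬ i ∈ Set.range e} → A) =>
    F (fun j => q.1 ⟨e j, j, rfl⟩))
  have h2 : av (fun X : I → A => F (fun j => X (e j))) = av fun X : I → A =>
      F (fun j => (E X).1 ⟨e j, j, rfl⟩) := rfl
  rw [h2, h1, av_prod]
  have h3 : ∀ a : ({i : I // i ∈ Set.range e} → A),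
      av (fun b : ({i : I // ¬ i ∈ Set.range e} → A) =>
        F (fun j => (a, b).1 ⟨e j, j, rfl⟩)) = F (fun j => a ⟨e j, j, rfl⟩) := by
    intro a
    have h4 := av_const (α := {i : I // ¬ i ∈ Set.range e} → A) (F (fun j => a ⟨e j, j, rfl⟩))
    exact h4
  rw [av_congr h3]
  let E' : (J → A) ≃ ({i : I // i ∈ Set.range e} → A) :=
    Equiv.arrowCongr (Equiv.ofInjective e e.injective) (Equiv.refl A)
  rw [← av_equiv E' (fun a : ({i : I // i ∈ Set.range e} → A) => F (fun j => a ⟨e j, j, rfl⟩))]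
  refine av_congr fun z => ?_
  congr 1
  funext j
  change z ((Equiv.ofInjective e e.injective).symm ⟨e j, j, rfl⟩) = z j
  congr 1
  exact (Equiv.ofInjective e e.injective).symm_apply_apply j

theorem av_grp {N t m : ℕ} {A : Type} [Fintype A] [DecidableEq A] [Nonempty A]
    (e : Fin t × Fin m ↪ Fin N) (F : Fin t → (Fin m → A) → ℝ) :
    av (fun X : Fin N → A => ∏ a, F a (fun b => X (e (a, b)))) = ∏ a, av (F a) := by
  rw [av_emb e (fun z : Fin t × Fin m → A => ∏ a, F a (fun b => z (a, b))), ← av_pi F]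
  exact av_equiv (Equiv.curry (Fin t) (Fin m) A) (fun z => ∏ a, F a (z a))

section grp

variable {A : Type} [Fintype A] [DecidableEq A] [Nonempty A]

/-- empirical mean -/
noncomputable def emp {m : ℕ} (φ : A → ℝ) (z : Fin m → A) : ℝ := (∑ b, φ (z b)) / m

theorem av_eval {m : ℕ} (φ : A → ℝ) (b : Fin m) : av (fun z : Fin m → A => φ (z b)) = av φ := by
  have h := av_pi_subset (J := Fin m) {b} (fun _ : Fin m => φ)
  simpa using h

theorem av_eval₂ {m : ℕ} (φ : A → ℝ) {b b' : Fin m} (hb : b ≠ b') :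
    av (fun z : Fin m → A => φ (z b) * φ (z b')) = av φ ^ 2 := by
  have h := av_pi_subset (J := Fin m) {b, b'} (fun _ : Fin m => φ)
  simp only [prod_pair hb] at h
  rw [sq]
  exact h

theorem av_emp {m : ℕ} (hm : 0 < m) (φ : A → ℝ) : av (fun z : Fin m → A => emp φ z) = av φ := by
  have hm' : (m : ℝ) ≠ 0 := by positivity
  have h1 : ∀ z : Fin m → A, emp φ z = (m : ℝ)⁻¹ * ∑ b, φ (z b) := by
    intro z; unfold emp; rw [div_eq_inv_mul]
  rw [av_congr h1, av_mul_left, av_sum, sum_congr rfl fun b _ => av_eval φ b, sum_const, card_univ,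
    Fintype.card_fin, nsmul_eq_mul, inv_mul_cancel_left₀ hm']

theorem av_emp_sq {m : ℕ} (hm : 0 < m) (φ : A → ℝ) (hφ : ∀ a, φ a ^ 2 = 1) :
    av (fun z : Fin m → A => emp φ z ^ 2) ≤ av φ ^ 2 + 1 / m := by
  have hm' : (0 : ℝ) < m := by positivity
  have h1 : ∀ z : Fin m → A, emp φ z ^ 2 = ((m : ℝ) ^ 2)⁻¹ * ∑ b, ∑ b', φ (z b) * φ (z b') := by
    intro z; unfold emp; rw [div_pow, sq (∑ b, φ (z b)), sum_mul_sum, div_eq_inv_mul]
  have h2 : ∀ b b' : Fin m, av (fun z : Fin m → A => φ (z b) * φ (z b')) ≤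
      av φ ^ 2 + if b = b' then 1 else 0 := by
    intro b b'
    by_cases h : b = b'
    · subst h
      rw [if_pos rfl, av_eval (fun a => φ a * φ a) b]
      have h3 : av (fun a => φ a * φ a) = 1 := by
        rw [av_congr fun a => by rw [← sq, hφ], av_const]
      rw [h3]
      linarith [sq_nonneg (av φ)]
    · rw [if_neg h, av_eval₂ φ h]
      linarith
  rw [av_congr h1, av_mul_left, av_sum]
  have h3 : ∑ b : Fin m, av (fun z : Fin m → A => ∑ b', φ (z b) * φ (z b')) ≤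
      ∑ b : Fin m, (m * av φ ^ 2 + 1) := by
    refine sum_le_sum fun b _ => ?_
    rw [av_sum]
    refine (sum_le_sum fun b' _ => h2 b b').trans (le_of_eq ?_)
    rw [sum_add_distrib, sum_ite_eq, if_pos (mem_univ _), sum_const, card_univ, Fintype.card_fin,
      nsmul_eq_mul]
  rw [sum_const, card_univ, Fintype.card_fin, nsmul_eq_mul] at h3
  rw [inv_mul_le_iff₀ (by positivity)]
  refine h3.trans (le_of_eq ?_)
  field_simp

end grp

theorem add_pow_three {a b : ℝ} (ha : 0 ≤ a) (hb : 0 ≤ b) {t : ℕ} (ht : 1 ≤ t) :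
    (a + b) ^ t ≤ 3 * a ^ t + ((1 + t) * b) ^ t := by
  have ht' : (0 : ℝ) < t := by exact_mod_cast ht
  by_cases h : t * b ≤ a
  · have h1 : a + b ≤ (1 + 1 / t) * a := by
      have : b ≤ a / t := by rw [le_div_iff₀ ht']; linarith
      have h2 : (1 + 1 / (t : ℝ)) * a = a + a / t := by ring
      linarith
    have h2 : (1 + 1 / (t : ℝ)) ^ t ≤ 3 := by
      have h3 : 1 + 1 / (t : ℝ) ≤ Real.exp (1 / t) := by
        have := Real.add_one_le_exp (1 / (t : ℝ)); linarith
      calc _ ≤ Real.exp (1 / t) ^ t := pow_le_pow_left₀ (by positivity) h3 t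
        _ = Real.exp 1 := by rw [← Real.exp_nat_mul]; congr 1; field_simp
        _ ≤ 3 := by linarith [Real.exp_one_lt_d9]
    calc (a + b) ^ t ≤ ((1 + 1 / t) * a) ^ t := pow_le_pow_left₀ (by positivity) h1 t
      _ = (1 + 1 / (t : ℝ)) ^ t * a ^ t := mul_pow _ _ _
      _ ≤ 3 * a ^ t := mul_le_mul_of_nonneg_right h2 (by positivity)
      _ ≤ _ := le_add_of_nonneg_right (by positivity)
  · rw [not_le] at h
    calc (a + b) ^ t ≤ ((1 + t) * b) ^ t := pow_le_pow_left₀ (by positivity) (by linarith) t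
      _ ≤ _ := le_add_of_nonneg_left (by positivity)

section learner

variable {n N : ℕ}

/-- The learner. -/
noncomputable def upL (ℓ t m : ℕ) (e : Fin t × Fin m ↪ Fin N) : Learner n N Unit := fun _ X y x =>
  ∑ S ∈ sm n ℓ, ch S x * ∏ a, (∑ b, sg (y (e (a, b))) * ch S (X (e (a, b)))) / m

theorem deg_prod {σ ι : Type} (s : Finset ι) (f : ι → MvPolynomial σ ℝ) {d : ℕ}
    (h : ∀ i ∈ s, (f i).totalDegree ≤ d) : (∏ i ∈ s, f i).totalDegree ≤ s.card * d := by
  refine (MvPolynomial.totalDegree_finsetProd s f).trans ?_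
  refine (sum_le_sum h).trans (le_of_eq ?_)
  rw [sum_const, smul_eq_mul]

theorem deg_sum {σ ι : Type} (s : Finset ι) (f : ι → MvPolynomial σ ℝ) {d : ℕ}
    (h : ∀ i ∈ s, (f i).totalDegree ≤ d) : (∑ i ∈ s, f i).totalDegree ≤ d :=
  MvPolynomial.totalDegree_finsetSum_le h

theorem deg_C_mul {σ : Type} (c : ℝ) (f : MvPolynomial σ ℝ) {d : ℕ} (h : f.totalDegree ≤ d) :
    (MvPolynomial.C c * f).totalDegree ≤ d := by
  refine (MvPolynomial.totalDegree_mul _ _).trans ?_
  rw [MvPolynomial.totalDegree_C, zero_add]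
  exact h

theorem upL_label (ℓ t m : ℕ) (e : Fin t × Fin m ↪ Fin N) :
    LabelDegree t (upL (n := n) ℓ t m e) := by
  intro r X x
  refine ⟨∑ S ∈ sm n ℓ, MvPolynomial.C (ch S x) * ∏ a : Fin t, (MvPolynomial.C (m : ℝ)⁻¹ *
    ∑ b : Fin m, MvPolynomial.C (ch S (X (e (a, b)))) * MvPolynomial.X (e (a, b))), ?_, ?_⟩
  · refine deg_sum _ _ fun S _ => deg_C_mul _ _ ?_
    refine (deg_prod (d := 1) _ _ fun a _ => deg_C_mul _ _ ?_).trans (by simp)
    refine deg_sum _ _ fun b _ => deg_C_mul _ _ ?_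
    rw [MvPolynomial.totalDegree_X]
  · intro y
    unfold upL
    simp only [map_sum, map_mul, map_prod, MvPolynomial.eval_C, MvPolynomial.eval_X]
    refine sum_congr rfl fun S _ => ?_
    congr 1
    refine prod_congr rfl fun a _ => ?_
    rw [div_eq_inv_mul]
    congr 1
    exact sum_congr rfl fun b _ => mul_comm _ _

theorem upL_sample (ℓ t m : ℕ) (e : Fin t × Fin m ↪ Fin N) :
    SampleDegree (t * (ℓ + 1)) (upL (n := n) ℓ t m e) := by
  intro r x
  refine ⟨∑ S ∈ sm n ℓ, MvPolynomial.C (ch S x) * ∏ a : Fin t, (MvPolynomial.C (m : ℝ)⁻¹ *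
    ∑ b : Fin m, MvPolynomial.X (e (a, b), none) *
      ∏ j ∈ S, MvPolynomial.X (e (a, b), some j)), ?_, ?_⟩
  · refine deg_sum _ _ fun S hS => deg_C_mul _ _ ?_
    refine (deg_prod (d := ℓ + 1) _ _ fun a _ => deg_C_mul _ _ ?_).trans (by simp)
    refine deg_sum _ _ fun b _ => ?_
    refine (MvPolynomial.totalDegree_mul _ _).trans ?_
    rw [MvPolynomial.totalDegree_X, add_comm]
    refine Nat.add_le_add_right ?_ 1
    refine (deg_prod (d := 1) _ _ fun j _ => ?_).trans ?_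
    · rw [MvPolynomial.totalDegree_X]
    · rw [mul_one]
      exact (mem_filter.1 hS).2
  · intro X y
    unfold upL
    simp only [map_sum, map_mul, map_prod, MvPolynomial.eval_C, MvPolynomial.eval_X]
    refine sum_congr rfl fun S _ => ?_
    congr 1
    refine prod_congr rfl fun a _ => ?_
    rw [div_eq_inv_mul]
    rfl

theorem upL_val (ℓ t m : ℕ) (e : Fin t × Fin m ↪ Fin N) (f : (Fin n → Bool) → Bool) (r : Unit)
    (X : Fin N → Fin n → Bool) (x : Fin n → Bool) :
    upL ℓ t m e r X (fun i => f (X i)) x = ∑ S ∈ sm n ℓ, ch S x *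
      ∏ a, emp (fun z => sg (f z) * ch S z) (fun b => X (e (a, b))) := rfl

theorem upL_corr {ℓ t m : ℕ} (hm : 0 < m) (e : Fin t × Fin m ↪ Fin N)
    (f : (Fin n → Bool) → Bool) :
    corr (upL ℓ t m e) f = ∑ S ∈ sm n ℓ, fh f S ^ (t + 1) := by
  classical
  rw [corr_eq, av_prod]
  refine (av_congr (g := fun _ => ∑ S ∈ sm n ℓ, fh f S ^ (t + 1)) fun r => ?_).trans (av_const _)
  have h1 : ∀ X : Fin N → Fin n → Bool, (av fun x : Fin n → Bool =>
      upL ℓ t m e r X (fun i => f (X i)) x * sg (f x)) =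
      ∑ S ∈ sm n ℓ, fh f S * ∏ a, emp (fun z => sg (f z) * ch S z) (fun b => X (e (a, b))) := by
    intro X
    have h2 : ∀ x : Fin n → Bool, upL ℓ t m e r X (fun i => f (X i)) x * sg (f x) =
        ∑ S ∈ sm n ℓ, (sg (f x) * ch S x) *
          ∏ a, emp (fun z => sg (f z) * ch S z) (fun b => X (e (a, b))) := by
      intro x
      rw [upL_val, sum_mul]
      exact sum_congr rfl fun S _ => by ring
    rw [av_congr h2, av_sum]
    exact sum_congr rfl fun S _ => by rw [av_mul_right]; rfl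
  have h3 : (av fun b : Fin N → Fin n → Bool => av fun x : Fin n → Bool =>
      upL ℓ t m e (r, b).1 (r, b).2 (fun i => f ((r, b).2 i)) x * sg (f x)) =
      av fun X : Fin N → Fin n → Bool => ∑ S ∈ sm n ℓ, fh f S *
        ∏ a, emp (fun z => sg (f z) * ch S z) (fun b => X (e (a, b))) := av_congr h1
  refine h3.trans ?_
  rw [av_sum]
  refine sum_congr rfl fun S _ => ?_
  rw [av_mul_left, av_grp e (fun _ => emp fun z => sg (f z) * ch S z)]
  rw [prod_congr rfl fun a _ => av_emp hm _, prod_const, card_univ, Fintype.card_fin, pow_succ,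
    mul_comm]
  rfl

theorem upL_sqMean {ℓ t m : ℕ} (hm : 0 < m) (e : Fin t × Fin m ↪ Fin N)
    (f : (Fin n → Bool) → Bool) :
    sqMean (upL ℓ t m e) f ≤ ∑ S ∈ sm n ℓ, (fh f S ^ 2 + 1 / m) ^ t := by
  classical
  rw [sqMean_eq, av_prod]
  refine (av_mono (g := fun _ => ∑ S ∈ sm n ℓ, (fh f S ^ 2 + 1 / (m : ℝ)) ^ t) fun r => ?_).trans
    (av_const _).le
  have h1 : ∀ X : Fin N → Fin n → Bool, (av fun x : Fin n → Bool =>
      upL ℓ t m e r X (fun i => f (X i)) x ^ 2) =
      ∑ S ∈ sm n ℓ, ∏ a, emp (fun z => sg (f z) * ch S z) (fun b => X (e (a, b))) ^ 2 := by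
    intro X
    set c : Finset (Fin n) → ℝ := fun S => if S ∈ sm n ℓ then
      ∏ a, emp (fun z => sg (f z) * ch S z) (fun b => X (e (a, b))) else 0 with hc
    have h2 : ∀ x : Fin n → Bool, upL ℓ t m e r X (fun i => f (X i)) x ^ 2 = pl c x ^ 2 := by
      intro x
      rw [upL_val]
      congr 1
      unfold pl
      have h3 : ∀ S, c S * ch S x = if S ∈ sm n ℓ then ch S x *
          ∏ a, emp (fun z => sg (f z) * ch S z) (fun b => X (e (a, b))) else 0 := by
        intro S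
        simp only [hc]
        split_ifs <;> ring
      rw [sum_congr rfl fun S _ => h3 S, sum_ite_mem, univ_inter]
    rw [av_congr h2, av_pl_sq]
    have h3 : ∀ S, c S ^ 2 = if S ∈ sm n ℓ then
          ∏ a, emp (fun z => sg (f z) * ch S z) (fun b => X (e (a, b))) ^ 2 else 0 := by
      intro S
      simp only [hc]
      split_ifs
      · rw [prod_pow]
      · ring
    rw [sum_congr rfl fun S _ => h3 S, sum_ite_mem, univ_inter]
  have h3 : (av fun b : Fin N → Fin n → Bool => av fun x : Fin n → Bool =>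
      upL ℓ t m e (r, b).1 (r, b).2 (fun i => f ((r, b).2 i)) x ^ 2) =
      av fun X : Fin N → Fin n → Bool => ∑ S ∈ sm n ℓ,
        ∏ a, emp (fun z => sg (f z) * ch S z) (fun b => X (e (a, b))) ^ 2 := av_congr h1
  refine h3.le.trans ?_
  rw [av_sum]
  refine sum_le_sum fun S _ => ?_
  rw [av_grp e (fun _ z => emp (fun z => sg (f z) * ch S z) z ^ 2)]
  rw [prod_const, card_univ, Fintype.card_fin]
  refine pow_le_pow_left₀ (av_nonneg fun _ => sq_nonneg _) ?_ t
  refine av_emp_sq hm _ fun a => ?_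
  rw [mul_pow, ch_sq, sq, sg_mul_self, mul_one]

/-- The upper bound. -/
theorem upper {s ℓ t B : ℕ} (hs : 1 ≤ s) (hℓ : 2 * s < 2 ^ (ℓ + 1)) (ht : Odd t)
    (hB : (n + 1) ^ ℓ ≤ B ^ t) (hN : 4 * s ^ 2 * (t * (t + 1)) * B ≤ N) :
    ∃ L : Learner n N Unit, LabelDegree t L ∧ SampleDegree (t * (ℓ + 1)) L ∧
      ∀ f, IsDnf s f → Real.sqrt (sqMean L f) ≤ 8 * s ^ 2 * corr L f := by
  classical
  obtain ⟨w, rfl⟩ := ht
  set t := 2 * w + 1 with htw
  have ht1 : 1 ≤ t := by omega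
  have hB1 : 1 ≤ B := by
    by_contra h
    have h1 : B = 0 := by omega
    subst h1
    rw [zero_pow (by omega)] at hB
    have : 0 < (n + 1) ^ ℓ := by positivity
    omega
  set m := 4 * s ^ 2 * (t + 1) * B with hm
  have hm0 : 0 < m := by positivity
  have hcard : Fintype.card (Fin t × Fin m) ≤ Fintype.card (Fin N) := by
    rw [Fintype.card_prod, Fintype.card_fin, Fintype.card_fin, Fintype.card_fin]
    refine le_trans (le_of_eq ?_) hN
    rw [hm]; ring
  obtain ⟨e⟩ := Function.Embedding.nonempty_of_card_le hcard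
  refine ⟨upL ℓ t m e, upL_label ℓ t m e, upL_sample ℓ t m e, fun f hf => ?_⟩
  rw [upL_corr hm0]
  have hs0 : (0 : ℝ) < s := by exact_mod_cast hs
  have hmr : (0 : ℝ) < m := by exact_mod_cast hm0
  -- the largest coefficient
  obtain ⟨S₁, hS₁, hS₁'⟩ := weak hs hf
  have hmem : S₁ ∈ sm n ℓ := by
    unfold sm
    rw [mem_filter]
    refine ⟨mem_univ _, ?_⟩
    have h1 : 2 ^ S₁.card < 2 ^ (ℓ + 1) := lt_of_le_of_lt hS₁ hℓ
    have := (Nat.pow_lt_pow_iff_right (by norm_num)).1 h1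
    omega
  obtain ⟨S₀, hS₀, hmax⟩ := exists_max_image (sm n ℓ) (fun S => |fh f S|) ⟨S₁, hmem⟩
  set M := |fh f S₀| with hM
  have hMlow : 1 / (2 * (s : ℝ)) ≤ M := hS₁'.trans (hmax S₁ hmem)
  have hM0 : 0 ≤ M := abs_nonneg _
  have hbes : ∑ S ∈ sm n ℓ, fh f S ^ 2 ≤ 1 := by
    have h1 := bessel (sm n ℓ) (fun x => sg (f x))
    have h2 : av (fun x : Fin n → Bool => sg (f x) ^ 2) = 1 := by
      rw [av_congr fun x => by rw [sq, sg_mul_self], av_const]
    rw [h2] at h1
    refine le_trans (le_of_eq ?_) h1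
    refine sum_congr rfl fun S _ => ?_
    unfold fh
    congr 1
    exact av_congr fun x => mul_comm _ _
  have hM1 : M ^ 2 ≤ 1 := by
    rw [hM, sq_abs]
    refine le_trans ?_ hbes
    exact single_le_sum (f := fun S => fh f S ^ 2) (fun S _ => sq_nonneg _) hS₀
  have hM2 : 1 / (4 * (s : ℝ) ^ 2) ≤ M ^ 2 := by
    have h1 := pow_le_pow_left₀ (by positivity) hMlow 2
    refine le_trans (le_of_eq ?_) h1
    field_simp
    norm_num
  -- correlation
  have hcorr : M ^ (2 * w) * M ^ 2 ≤ ∑ S ∈ sm n ℓ, fh f S ^ (t + 1) := by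
    have h1 : ∀ S, fh f S ^ (t + 1) = |fh f S| ^ (t + 1) := by
      intro S
      rw [Even.pow_abs]
      exact ⟨w + 1, by omega⟩
    rw [sum_congr rfl fun S _ => h1 S]
    refine le_trans (le_of_eq ?_) (single_le_sum (f := fun S => |fh f S| ^ (t + 1))
      (fun S _ => by positivity) hS₀)
    rw [← pow_add]
  -- square mean
  have hsq : sqMean (upL ℓ t m e) f ≤ (2 * M ^ (2 * w)) ^ 2 := by
    refine (upL_sqMean hm0 e f).trans ?_
    have h1 : ∀ S ∈ sm n ℓ, (fh f S ^ 2 + 1 / (m : ℝ)) ^ t ≤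
        3 * (M ^ (2 * w)) ^ 2 * fh f S ^ 2 + ((1 + t) * (1 / (m : ℝ))) ^ t := by
      intro S hS
      refine (add_pow_three (sq_nonneg _) (by positivity) ht1).trans ?_
      have h2 : fh f S ^ 2 ≤ M ^ 2 := by
        rw [← sq_abs (fh f S)]
        exact pow_le_pow_left₀ (abs_nonneg _) (hmax S hS) 2
      have h3 : (fh f S ^ 2) ^ t ≤ (M ^ (2 * w)) ^ 2 * fh f S ^ 2 := by
        rw [htw, pow_succ]
        refine mul_le_mul_of_nonneg_right ?_ (sq_nonneg _)
        calc _ ≤ (M ^ 2) ^ (2 * w) := pow_le_pow_left₀ (sq_nonneg _) h2 _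
          _ = _ := by rw [← pow_mul, ← pow_mul, mul_comm]
      linarith
    refine (sum_le_sum h1).trans ?_
    rw [sum_add_distrib, ← mul_sum, sum_const, nsmul_eq_mul]
    have h4 : ((sm n ℓ).card : ℝ) * ((1 + t) * (1 / (m : ℝ))) ^ t ≤ (M ^ (2 * w)) ^ 2 := by
      have h5 : ((sm n ℓ).card : ℝ) ≤ (B : ℝ) ^ t := by
        exact_mod_cast (card_sm n ℓ).trans hB
      calc _ ≤ (B : ℝ) ^ t * ((1 + t) * (1 / (m : ℝ))) ^ t :=
            mul_le_mul_of_nonneg_right h5 (by positivity)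
        _ = (1 / (4 * (s : ℝ) ^ 2)) ^ t := by
            rw [← mul_pow]
            congr 1
            have hB0 : (0 : ℝ) < B := by exact_mod_cast hB1
            rw [hm]
            push_cast
            field_simp
            ring
        _ ≤ (M ^ 2) ^ t := pow_le_pow_left₀ (by positivity) hM2 t
        _ = (M ^ 2) ^ (2 * w) * M ^ 2 := by rw [htw, pow_succ]
        _ ≤ (M ^ 2) ^ (2 * w) * 1 := mul_le_mul_of_nonneg_left hM1 (by positivity)
        _ = _ := by rw [mul_one, ← pow_mul, ← pow_mul, mul_comm]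
    have h6 : 3 * (M ^ (2 * w)) ^ 2 * ∑ S ∈ sm n ℓ, fh f S ^ 2 ≤ 3 * (M ^ (2 * w)) ^ 2 * 1 :=
      mul_le_mul_of_nonneg_left hbes (by positivity)
    have h7 : (2 * M ^ (2 * w)) ^ 2 = 3 * (M ^ (2 * w)) ^ 2 * 1 + (M ^ (2 * w)) ^ 2 := by ring
    rw [h7]
    exact add_le_add h6 h4
  calc Real.sqrt (sqMean (upL ℓ t m e) f) ≤ 2 * M ^ (2 * w) := by
        refine (Real.sqrt_le_sqrt hsq).trans (le_of_eq ?_)
        exact Real.sqrt_sq (by positivity)
    _ = 8 * s ^ 2 * (M ^ (2 * w) * (1 / (4 * (s : ℝ) ^ 2))) := by field_simp; ring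
    _ ≤ 8 * s ^ 2 * (M ^ (2 * w) * M ^ 2) := by
        refine mul_le_mul_of_nonneg_left ?_ (by positivity)
        exact mul_le_mul_of_nonneg_left hM2 (by positivity)
    _ ≤ _ := mul_le_mul_of_nonneg_left hcorr (by positivity)

end learner

end Helper94K9.LD
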