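import Pool.Agent.Helper94K9.LD.Tot

/-!
# A large Fourier coefficient of a DNF formula
-/

set_option autoImplicit false
set_option linter.unusedSectionVars false

namespace Helper94K9.LD

open Finset Pool.Agent.TH661.LPX Pool.Agent.Y636.CL
open Pool.Agent.W964.Wd (IsDnf)

variable {n : ℕ}

/-- the Fourier coefficient of the sign of `f` -/
noncomputable def fh (f : (Fin n → Bool) → Bool) (S : Finset (Fin n)) : ℝ :=
  av fun x => sg (f x) * ch S x

/-- `2 ^ |V|` times the indicator of agreement with `u` on `V` -/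
noncomputable def agr (V : Finset (Fin n)) (u x : Fin n → Bool) : ℝ :=
  ∏ v ∈ V, (1 + sg (x v) * sg (u v))

theorem agr_eq_sum (V : Finset (Fin n)) (u x : Fin n → Bool) :
    agr V u x = ∑ U ∈ V.powerset, ch U x * ch U u := by
  unfold agr
  rw [prod_one_add]
  refine sum_congr rfl fun U _ => ?_
  unfold ch
  rw [prod_mul_distrib]

theorem agr_nonneg (V : Finset (Fin n)) (u x : Fin n → Bool) : 0 ≤ agr V u x := by
  refine prod_nonneg fun v _ => ?_
  cases x v <;> cases u v <;> simp [Pool.Agent.TH661.LPX.sg]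

theorem agr_of_agree {V : Finset (Fin n)} {u x : Fin n → Bool} (h : ∀ v ∈ V, x v = u v) :
    agr V u x = 2 ^ V.card := by
  unfold agr
  rw [prod_congr rfl fun v hv => by rw [h v hv, sg_mul_self, one_add_one_eq_two], prod_const]

theorem agree_of_agr {V : Finset (Fin n)} {u x : Fin n → Bool} (h : agr V u x ≠ 0) :
    ∀ v ∈ V, x v = u v := by
  intro v hv
  by_contra hne
  apply h
  refine prod_eq_zero hv ?_
  cases hx : x v <;> cases hu : u v <;> simp [Pool.Agent.TH661.LPX.sg, hx, hu] at hne ⊢

theorem av_agr (V : Finset (Fin n)) (u : Fin n → Bool) : av (agr V u) = 1 := by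
  rw [av_congr (agr_eq_sum V u), av_sum]
  have h1 : ∀ U ∈ V.powerset, av (fun x => ch U x * ch U u) = if U = ∅ then 1 else 0 := by
    intro U _
    rw [av_mul_right, av_ch]
    split_ifs with h
    · subst h; simp [ch]
    · simp
  rw [sum_congr rfl h1, sum_ite_eq' V.powerset]
  simp

theorem weak {s : ℕ} (hs : 1 ≤ s) {f : (Fin n → Bool) → Bool} (hf : IsDnf s f) :
    ∃ S : Finset (Fin n), 2 ^ S.card ≤ 2 * s ∧ 1 / (2 * (s : ℝ)) ≤ |fh f S| := by
  classical
  obtain ⟨r, t, hr, ht⟩ := hf
  have hrs : (r : ℝ) + 1 ≤ s := by exact_mod_cast hr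
  have hs0 : (0 : ℝ) < s := by exact_mod_cast hs
  set p : ℝ := av fun x => ind (f x = true) with hp
  have h0 : fh f ∅ = 1 - 2 * p := by
    unfold fh
    have h1 : ∀ x : Fin n → Bool, sg (f x) * ch ∅ x = 1 - 2 * ind (f x = true) := by
      intro x
      cases hx : f x <;> simp [ind, ch, Pool.Agent.TH661.LPX.sg]
      norm_num
    rw [av_congr h1, av_sub, av_mul_left, av_const]
  by_cases hcase : p * (2 * r + 1) ≤ r
  · refine ⟨∅, by simp; omega, ?_⟩
    rw [h0]
    refine le_trans ?_ (le_abs_self _)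
    rw [div_le_iff₀ (by positivity)]
    have h2r : (0 : ℝ) < 2 * r + 1 := by positivity
    have h3 : 1 ≤ (1 - 2 * p) * (2 * r + 1) := by nlinarith
    have h4 : 0 ≤ 1 - 2 * p := by
      by_contra h
      nlinarith
    nlinarith
  · rw [not_le] at hcase
    -- a term of large probability
    have hun : p ≤ ∑ i : Fin r, av fun x : Fin n → Bool => ind (∀ q ∈ t i, x q.1 = q.2) := by
      rw [hp, ← av_sum]
      refine av_mono fun x => ?_
      by_cases hx : f x = true
      · obtain ⟨i, hi⟩ := (ht x).1 hx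
        rw [ind_true hx]
        calc (1 : ℝ) = ind (∀ q ∈ t i, x q.1 = q.2) := (ind_true hi).symm
          _ ≤ _ := single_le_sum (f := fun i : Fin r => ind (∀ q ∈ t i, x q.1 = q.2))
            (fun j _ => ind_nonneg _) (mem_univ i)
      · rw [ind_false hx]
        exact sum_nonneg fun j _ => ind_nonneg _
    have h2r : (0 : ℝ) < 2 * r + 1 := by positivity
    obtain ⟨i, hi⟩ : ∃ i : Fin r, 1 / (2 * (r : ℝ) + 1) < av fun x : Fin n → Bool => ind (∀ q ∈ t i, x q.1 = q.2) := by
      by_contra hcon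
      push Not at hcon
      have h1 : p ≤ ∑ i : Fin r, 1 / (2 * (r : ℝ) + 1) := hun.trans (sum_le_sum fun i _ => hcon i)
      rw [sum_const, card_univ, Fintype.card_fin, nsmul_eq_mul, mul_one_div,
        le_div_iff₀ h2r] at h1
      linarith
    -- a satisfying assignment
    obtain ⟨u, hu⟩ : ∃ u : Fin n → Bool, ∀ q ∈ t i, u q.1 = q.2 := by
      by_contra hcon
      push Not at hcon
      have h1 : av (fun x : Fin n → Bool => ind (∀ q ∈ t i, x q.1 = q.2)) ≤ 0 :=
        av_le_const fun x => by
          rw [ind_false]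
          intro h
          obtain ⟨q, hq, hq'⟩ := hcon x
          exact hq' (h q hq)
      have h2 : (0 : ℝ) < 1 / (2 * (r : ℝ) + 1) := by positivity
      linarith
    set V : Finset (Fin n) := (t i).image Prod.fst with hV
    have hagree : ∀ x : Fin n → Bool, (∀ v ∈ V, x v = u v) ↔ ∀ q ∈ t i, x q.1 = q.2 := by
      intro x
      constructor
      · intro h q hq
        rw [h q.1 (mem_image_of_mem _ hq), hu q hq]
      · intro h v hv
        obtain ⟨q, hq, rfl⟩ := mem_image.1 hv
        rw [h q hq, hu q hq]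
    have hle : av (fun x : Fin n → Bool => ind (∀ q ∈ t i, x q.1 = q.2)) ≤ 1 / 2 ^ V.card := by
      have h1 : ∀ x : Fin n → Bool, ind (∀ q ∈ t i, x q.1 = q.2) ≤ 1 / 2 ^ V.card * agr V u x := by
        intro x
        by_cases h : ∀ q ∈ t i, x q.1 = q.2
        · rw [ind_true h, agr_of_agree ((hagree x).2 h)]
          rw [one_div, inv_mul_cancel₀ (by positivity)]
        · rw [ind_false h]
          exact mul_nonneg (by positivity) (agr_nonneg _ _ _)
      refine (av_mono h1).trans (le_of_eq ?_)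
      rw [av_mul_left, av_agr, mul_one]
    have hV2 : 2 ^ V.card ≤ 2 * r := by
      have h1 : 1 / (2 * (r : ℝ) + 1) < 1 / 2 ^ V.card := hi.trans_le hle
      rw [one_div_lt_one_div h2r (by positivity)] at h1
      have h2 : 2 ^ V.card < 2 * r + 1 := by exact_mod_cast h1
      omega
    have hsum : ∑ U ∈ V.powerset, fh f U * ch U u = -1 := by
      have h1 : ∀ x, sg (f x) * agr V u x = - agr V u x := by
        intro x
        by_cases h : agr V u x = 0
        · rw [h]; simp
        · have h2 := (hagree x).1 (agree_of_agr h)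
          rw [(ht x).2 ⟨i, h2⟩]
          simp [Pool.Agent.TH661.LPX.sg]
      have h2 : av (fun x => sg (f x) * agr V u x) = -1 := by
        rw [av_congr h1, av_neg, av_agr]
      rw [← h2]
      have h3 : ∀ x, sg (f x) * agr V u x = ∑ U ∈ V.powerset, (sg (f x) * ch U x) * ch U u := by
        intro x
        rw [agr_eq_sum, mul_sum]
        exact sum_congr rfl fun U _ => by ring
      rw [av_congr h3, av_sum]
      exact sum_congr rfl fun U _ => by rw [av_mul_right]; rfl
    by_contra hcon
    push Not at hcon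
    have habs : ∀ U : Finset (Fin n), |ch U u| = 1 := by
      intro U
      have h1 : |ch U u| ^ 2 = 1 ^ 2 := by rw [sq_abs, ch_sq, one_pow]
      exact (pow_left_inj₀ (abs_nonneg _) zero_le_one two_ne_zero).1 h1
    have h1 : (1 : ℝ) ≤ ∑ U ∈ V.powerset, |fh f U| := by
      calc (1 : ℝ) = |∑ U ∈ V.powerset, fh f U * ch U u| := by rw [hsum]; simp
        _ ≤ ∑ U ∈ V.powerset, |fh f U * ch U u| := abs_sum_le_sum_abs _ _
        _ = _ := sum_congr rfl fun U _ => by rw [abs_mul, habs, mul_one]
    have h2 : ∑ U ∈ V.powerset, |fh f U| < ∑ U ∈ V.powerset, 1 / (2 * (s : ℝ)) := by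
      refine sum_lt_sum_of_nonempty ⟨∅, by simp⟩ fun U hU => hcon U ?_
      calc 2 ^ U.card ≤ 2 ^ V.card := Nat.pow_le_pow_right (by norm_num) (card_le_card (mem_powerset.1 hU))
        _ ≤ 2 * r := hV2
        _ ≤ 2 * s := by omega
    rw [sum_const, card_powerset, nsmul_eq_mul, mul_one_div] at h2
    have h3 : (((2 ^ V.card : ℕ) : ℝ)) ≤ 2 * r := by exact_mod_cast hV2
    have h4 : ((2 ^ V.card : ℕ) : ℝ) / (2 * (s : ℝ)) ≤ 1 := by
      rw [div_le_one (by positivity)]
      linarith
    linarith

end Helper94K9.LD
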